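import Pool.Agent.H606PD.Seg

set_option autoImplicit false

namespace Pool.Agent.H606PD

open Classical in
/-- the dead moves at level `j` -/
noncomputable def Dead (K : ℕ) (x : ℕ → ℕ → Bool) (P : ℕ → ℕ) (E : ℕ → Option ℕ) (j : ℕ) :
    Finset ℕ := (Finset.range K).filter (fun t => j ≤ P t ∧ ¬ Al x P E j t)

/-- the two reflections generating the infinite dihedral group -/
def Lf (r : ℕ) (z : ℤ) : ℤ := if r % 2 = 0 then -z else 1 - z

theorem Lf_Lf (r : ℕ) (z : ℤ) : Lf r (Lf r z) = z := by
  unfold Lf
  split_ifs <;> ring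

open Classical in
/-- the running product of reflections over the moves alive at level `j`, applied to `0` -/
noncomputable def hh (x : ℕ → ℕ → Bool) (P : ℕ → ℕ) (E : ℕ → Option ℕ) (j : ℕ) : ℕ → ℤ
  | 0 => 0
  | t + 1 => if Al x P E j t then Lf (P t) (hh x P E j t) else hh x P E j t

/-- product of reflections of the ones -/
def W (q : ℕ → ℕ) : ℕ → ℤ
  | 0 => 0
  | i + 1 => Lf (q i) (W q i)

section
variable {K : ℕ} {x : ℕ → ℕ → Bool} {P : ℕ → ℕ} {E : ℕ → Option ℕ}

theorem mem_Dead {j t : ℕ} : t ∈ Dead K x P E j ↔ t < K ∧ j ≤ P t ∧ ¬ Al x P E j t := by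
  unfold Dead
  simp

theorem hh_succ_pos {j t : ℕ} (h : Al x P E j t) :
    hh x P E j (t + 1) = Lf (P t) (hh x P E j t) := by
  rw [hh, if_pos h]

theorem hh_succ_neg {j t : ℕ} (h : ¬ Al x P E j t) :
    hh x P E j (t + 1) = hh x P E j t := by
  rw [hh, if_neg h]

theorem hh_zero {j : ℕ} : ∀ t, (∀ s, s < t → ¬ Al x P E j s) → hh x P E j t = 0 := by
  intro t
  induction t with
  | zero => intro _; rfl
  | succ t ih =>
    intro h
    rw [hh_succ_neg (h t (by omega))]
    exact ih (fun s hs => h s (by omega))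

theorem seg_group {a q c θ : ℕ} (hθ : θ < K)
    (hI : ∀ t, t < K → (Al x P E a t ↔ (P t = q ∨ (Al x P E c t ∧ t ≠ θ))))
    (hN : ∀ t, t < K → P t = q → θ < t)
    (hO : ∀ t, t < K → Al x P E c t → t ≠ θ → t < θ)
    (hC : (Al x P E c θ ∧ P θ % 2 = q % 2 ∧ par (fun s => decide (P s = q)) K = false) ∨
     (¬ Al x P E c θ ∧ par (fun s => decide (P s = q)) K = true)) :
    hh x P E a K = Lf q (hh x P E c K) := by
  have claim1 : ∀ t, t ≤ θ → hh x P E a t = hh x P E c t := by
    intro t
    induction t with
    | zero => intro _; rfl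
    | succ t ih =>
      intro ht
      have h1 := ih (by omega)
      have h2 : Al x P E a t ↔ Al x P E c t := by
        rw [hI t (by omega)]
        constructor
        · rintro (h3 | h3)
          · have := hN t (by omega) h3
            omega
          · exact h3.1
        · intro h3
          exact Or.inr ⟨h3, by omega⟩
      by_cases h3 : Al x P E c t
      · rw [hh_succ_pos h3, hh_succ_pos (h2.mpr h3), h1]
      · rw [hh_succ_neg h3, hh_succ_neg (fun h4 => h3 (h2.mp h4)), h1]
  have claim2 : ∀ t, θ + 1 ≤ t → t ≤ K → hh x P E c t = hh x P E c (θ + 1) := by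
    intro t ht
    induction t, ht using Nat.le_induction with
    | base => intro _; rfl
    | succ t ht ih =>
      intro htK
      rw [← ih (by omega)]
      refine hh_succ_neg ?_
      intro h1
      have := hO t (by omega) h1 (by omega)
      omega
  have claim3 : ∀ t, θ + 1 ≤ t → t ≤ K → hh x P E a t =
      if par (fun s => decide (P s = q)) t = true then Lf q (hh x P E c θ)
      else hh x P E c θ := by
    intro t ht
    induction t, ht using Nat.le_induction with
    | base =>
      intro _
      have h1 : par (fun s => decide (P s = q)) (θ + 1) = false := by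
        refine par_none _ ?_
        intro s hs
        have h2 : P s ≠ q := by
          intro h3
          have := hN s (by omega) h3
          omega
        simp [h2]
      rw [h1]
      have h2 : ¬ Al x P E a θ := by
        rw [hI θ hθ]
        rintro (h3 | h3)
        · have := hN θ hθ h3
          omega
        · exact h3.2 rfl
      rw [hh_succ_neg h2, claim1 θ le_rfl]
      simp
    | succ t ht ih =>
      intro htK
      have h1 := ih (by omega)
      have h2 : Al x P E a t ↔ P t = q := by
        rw [hI t (by omega)]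
        constructor
        · rintro (h3 | h3)
          · exact h3
          · have := hO t (by omega) h3.1 h3.2
            omega
        · intro h3
          exact Or.inl h3
      rw [par]
      by_cases h3 : P t = q
      · rw [hh_succ_pos (h2.mpr h3), h1, h3]
        by_cases h4 : par (fun s => decide (P s = q)) t = true
        · rw [if_pos h4, h4]
          simp [Lf_Lf]
        · have h5 : par (fun s => decide (P s = q)) t = false := by simpa using h4
          rw [if_neg h4, h5]
          simp
      · rw [hh_succ_neg (fun h4 => h3 (h2.mp h4)), h1]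
        have h6 : decide (P t = q) = false := by simp [h3]
        rw [h6, Bool.xor_false]
  have h1 := claim3 K (by omega) le_rfl
  have h2 := claim2 K (by omega) le_rfl
  rcases hC with ⟨h3, h4, h5⟩ | ⟨h3, h5⟩
  · rw [h1, h5, h2, hh_succ_pos h3]
    have h6 : Lf (P θ) (hh x P E c θ) = Lf q (hh x P E c θ) := by
      unfold Lf
      rw [h4]
    rw [h6, Lf_Lf]
    simp
  · rw [h1, h5, h2, hh_succ_neg h3]
    simp

theorem Dead_mono {a c : ℕ} (hac : a ≤ c) : Dead K x P E c ⊆ Dead K x P E a := by
  intro t ht
  rw [mem_Dead] at ht ⊢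
  refine ⟨ht.1, by omega, ?_⟩
  intro h
  exact ht.2.2 (Al_mono h hac ht.2.1)

theorem death_mem {a c t j : ℕ} (ht : t < K) (h1 : a ≤ j) (h2 : j < c)
    (h3 : Al x P E (j + 1) t) (h4 : ¬ Al x P E j t) :
    t ∈ Dead K x P E a \ Dead K x P E c := by
  rw [Finset.mem_sdiff, mem_Dead, mem_Dead]
  have h5 := h3.1
  refine ⟨⟨ht, by omega, ?_⟩, ?_⟩
  · intro h
    exact h4 (Al_mono h h1 (by omega))
  · rintro ⟨_, h6, h7⟩
    exact h7 (Al_mono h3 (by omega) h6)

theorem seg_step (T : Timeline K x P E) {a q c : ℕ} (haq : a < q) (hqc : q < c)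
    (ha : Clean K x P E a) (hc : Clean K x P E c) (hq : x K q = true)
    (hb : ∀ j, a ≤ j → j ≤ c → j ≠ q → x K j = false) :
    (Dead K x P E c).card + 1 ≤ (Dead K x P E a).card ∧
    ((Dead K x P E a).card = (Dead K x P E c).card + 1 →
      hh x P E a K = Lf q (hh x P E c K)) := by
  obtain ⟨θ, hθ, d, had, hdc, hθ1, hθ2⟩ := seg_exists T haq hqc ha hc hq
  have hmem := death_mem (a := a) (c := c) hθ had hdc hθ1 hθ2
  have hsub : Dead K x P E c ⊆ Dead K x P E a := Dead_mono (by omega)
  have hcard := Finset.card_sdiff_add_card_eq_card hsub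
  have hpos : 0 < (Dead K x P E a \ Dead K x P E c).card := Finset.card_pos.mpr ⟨θ, hmem⟩
  refine ⟨by omega, ?_⟩
  intro hcd
  have h1 : (Dead K x P E a \ Dead K x P E c).card = 1 := by omega
  rw [Finset.card_eq_one] at h1
  obtain ⟨θ', h1⟩ := h1
  have h2 : ∀ t, t ∈ Dead K x P E a \ Dead K x P E c → t = θ := by
    intro t ht
    rw [h1, Finset.mem_singleton] at ht hmem
    rw [ht, hmem]
  have huniq : ∀ t, t < K → ∀ j, a ≤ j → j < c → Al x P E (j + 1) t → ¬ Al x P E j t →
      t = θ ∧ j = d := by
    intro t ht j hj1 hj2 h3 h4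
    have h5 := h2 t (death_mem ht hj1 hj2 h3 h4)
    subst h5
    refine ⟨rfl, ?_⟩
    by_contra hne
    have h6 := h3.1
    have h7 := hθ1.1
    rcases Nat.lt_or_gt_of_ne hne with h8 | h8
    · exact hθ2 (Al_mono h3 (by omega) (by omega))
    · exact h4 (Al_mono hθ1 (by omega) (by omega))
  obtain ⟨hI, hN, hO, hC⟩ := seg_unique T haq hqc ha hc hq hb hθ had hdc hθ1 hθ2 huniq
  exact seg_group hθ hI hN hO hC

theorem main_lb (T : Timeline K x P E) (k : ℕ) (q c : ℕ → ℕ)
    (h1 : ∀ i, i < k → c (i + 1) < q i ∧ q i < c i)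
    (h2 : ∀ i, i ≤ k → Clean K x P E (c i))
    (h3 : ∀ i, i < k → x K (q i) = true)
    (h4 : ∀ i, i < k → ∀ j, c (i + 1) ≤ j → j ≤ c i → j ≠ q i → x K j = false)
    (h5 : ∀ t, t < K → P t < c 0) :
    k ≤ K ∧ (K = k → W q k = 0) := by
  have key : ∀ i, i ≤ k → i ≤ (Dead K x P E (c i)).card ∧
      ((Dead K x P E (c i)).card = i → hh x P E (c i) K = W q i) := by
    intro i
    induction i with
    | zero =>
      intro _
      refine ⟨Nat.zero_le _, fun _ => ?_⟩
      rw [W]
      refine hh_zero K ?_
      intro s hs h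
      have := h.1
      have := h5 s hs
      omega
    | succ i ih =>
      intro hi
      obtain ⟨ih1, ih2⟩ := ih (by omega)
      obtain ⟨h6, h7⟩ := seg_step T (h1 i (by omega)).1 (h1 i (by omega)).2
        (h2 (i + 1) hi) (h2 i (by omega)) (h3 i (by omega)) (h4 i (by omega))
      refine ⟨by omega, ?_⟩
      intro h8
      have h9 : (Dead K x P E (c i)).card = i := by omega
      rw [W, ← ih2 h9]
      exact h7 (by omega)
  obtain ⟨h6, h7⟩ := key k le_rfl
  have h8 : (Dead K x P E (c k)).card ≤ K := by
    have h9 : Dead K x P E (c k) ⊆ Finset.range K := by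
      intro t ht
      rw [mem_Dead] at ht
      exact Finset.mem_range.mpr ht.1
    have := Finset.card_le_card h9
    rwa [Finset.card_range] at this
  refine ⟨by omega, ?_⟩
  intro hK
  have h9 : (Dead K x P E (c k)).card = k := by omega
  rw [← h7 h9]
  refine hh_zero K ?_
  intro s hs hA
  have h10 : Dead K x P E (c k) = Finset.range K := by
    refine Finset.eq_of_subset_of_card_le ?_ ?_
    · intro t ht
      rw [mem_Dead] at ht
      exact Finset.mem_range.mpr ht.1
    · rw [Finset.card_range]; omega
  have h11 : s ∈ Dead K x P E (c k) := by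
    rw [h10]; exact Finset.mem_range.mpr hs
  rw [mem_Dead] at h11
  exact h11.2.2 hA

end

end Pool.Agent.H606PD
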