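import Pool.Agent.H606PD.Pal

set_option autoImplicit false

namespace Pool.Agent.H606PD

section
variable {u : ℕ → Bool}

theorem Pl_refl (u : ℕ → Bool) (a : ℕ) : Pl u a a := by
  intro i j h1 h2 h3
  omega

theorem Pl_compl (hu : ∀ n : ℕ, u (2 * n) = false ∧ u (2 * n + 1) = !(u n)) :
    ∀ e a b r : ℕ, r < 2 ^ e → Pl u a b →
      Pl u (a * 2 ^ e + (2 ^ e - 1 - r)) (b * 2 ^ e + r) := by
  intro e
  induction e with
  | zero =>
    intro a b r hr h
    have hr0 : r = 0 := by simpa using hr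
    subst hr0
    simpa using h
  | succ e ih =>
    intro a b r hr h
    have hp : 2 ^ (e + 1) = 2 * 2 ^ e := by rw [pow_succ, mul_comm]
    have hpos : 0 < 2 ^ e := Nat.two_pow_pos e
    have h1 := ih a b (r / 2) (by omega) h
    have ea : a * 2 ^ (e + 1) = 2 * (a * 2 ^ e) := by rw [hp]; ring
    have eb : b * 2 ^ (e + 1) = 2 * (b * 2 ^ e) := by rw [hp]; ring
    rw [ea, eb, hp]
    rw [Pl_half hu (by omega)]
    have e1 : (2 * (a * 2 ^ e) + (2 * 2 ^ e - 1 - r)) / 2 = a * 2 ^ e + (2 ^ e - 1 - r / 2) := by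
      omega
    have e2 : (2 * (b * 2 ^ e) + r) / 2 = b * 2 ^ e + r / 2 := by omega
    rw [e1, e2]
    exact h1

theorem u_val (hu : ∀ n : ℕ, u (2 * n) = false ∧ u (2 * n + 1) = !(u n)) :
    ∀ v A : ℕ, u ((2 * A + 1) * 2 ^ v - 1) = decide (v % 2 = 1) := by
  intro v
  induction v with
  | zero => intro A; simp [(hu A).1]
  | succ v ih =>
    intro A
    have hpos : 0 < (2 * A + 1) * 2 ^ v := by positivity
    have h1 : (2 * A + 1) * 2 ^ (v + 1) - 1 = 2 * ((2 * A + 1) * 2 ^ v - 1) + 1 := by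
      have : (2 * A + 1) * 2 ^ (v + 1) = 2 * ((2 * A + 1) * 2 ^ v) := by ring
      omega
    rw [h1, (hu _).2, ih A]
    by_cases hv : v % 2 = 1
    · have h6 : ¬ (v + 1) % 2 = 1 := by omega
      simp [hv, h6]
    · have h6 : (v + 1) % 2 = 1 := by omega
      simp [hv, h6]

theorem step_single (hu : ∀ n : ℕ, u (2 * n) = false ∧ u (2 * n + 1) = !(u n))
    {K A p r : ℕ} (hr : r < 2 ^ p) (h : Reach u K (A * 2 ^ (p + 2) + r)) :
    Reach u (K + 2) (A * 2 ^ (p + 2) + 2 ^ (p + 1) + r) := by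
  have hp1 : 2 ^ (p + 1) = 2 * 2 ^ p := by rw [pow_succ, mul_comm]
  have hp2 : 2 ^ (p + 2) = 2 * 2 ^ (p + 1) := by rw [pow_succ, mul_comm]
  have h1 : Pl u (A * 2 ^ (p + 2) + r) (A * 2 ^ (p + 2) + (2 ^ (p + 1) - 1 - r)) := by
    have h2 := Pl_compl hu (p + 1) (2 * A) (2 * A) (2 ^ (p + 1) - 1 - r) (by omega)
      (Pl_refl u _)
    have e1 : 2 * A * 2 ^ (p + 1) = A * 2 ^ (p + 2) := by rw [hp2]; ring
    have e2 : 2 ^ (p + 1) - 1 - (2 ^ (p + 1) - 1 - r) = r := by omega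
    rw [e1, e2] at h2
    exact h2
  have h3 : Pl u (A * 2 ^ (p + 2) + (2 ^ (p + 1) - 1 - r))
      (A * 2 ^ (p + 2) + 2 ^ (p + 1) + r) := by
    have h4 := Pl_compl hu (p + 2) A A (2 ^ (p + 1) + r) (by omega) (Pl_refl u _)
    have e2 : 2 ^ (p + 2) - 1 - (2 ^ (p + 1) + r) = 2 ^ (p + 1) - 1 - r := by omega
    rw [e2, ← add_assoc] at h4
    exact h4
  exact Reach.step (Reach.step h (by omega) h1) (by omega) h3

theorem step_pair (hu : ∀ n : ℕ, u (2 * n) = false ∧ u (2 * n + 1) = !(u n))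
    {K A e g r : ℕ} (hr : r < 2 ^ e) (hg : g % 2 = 1)
    (h : Reach u K (A * 2 ^ (e + g + 2) + r)) :
    Reach u (K + 2) (A * 2 ^ (e + g + 2) + 2 ^ (e + g + 1) + 2 ^ e + r) := by
  have hp2 : 2 ^ (e + g + 2) = 2 * 2 ^ (e + g + 1) := by rw [pow_succ, mul_comm]
  have hpg : 2 ^ (e + g + 1) = 2 ^ e * (2 * 2 ^ g) := by
    rw [pow_add, pow_add]; ring
  have hgpos : 0 < 2 ^ g := Nat.two_pow_pos g
  have hle : 2 ^ e * 2 ≤ 2 ^ (e + g + 1) := by
    rw [hpg]
    exact Nat.mul_le_mul_left _ (by omega)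
  have h1 : Pl u (A * 2 ^ (e + g + 2) + r)
      (A * 2 ^ (e + g + 2) + (2 ^ (e + g + 1) - 1 - r)) := by
    have h2 := Pl_compl hu (e + g + 1) (2 * A) (2 * A) (2 ^ (e + g + 1) - 1 - r) (by omega)
      (Pl_refl u _)
    have e1 : 2 * A * 2 ^ (e + g + 1) = A * 2 ^ (e + g + 2) := by rw [hp2]; ring
    have e2 : 2 ^ (e + g + 1) - 1 - (2 ^ (e + g + 1) - 1 - r) = r := by omega
    rw [e1, e2] at h2
    exact h2
  have h3 : Pl u (A * 2 ^ (e + g + 2) + (2 ^ (e + g + 1) - 1 - r))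
      (A * 2 ^ (e + g + 2) + 2 ^ (e + g + 1) + 2 ^ e + r) := by
    -- the quotient by 2^e
    have hm : u ((A * 2 ^ (g + 2) + (2 ^ (g + 1) - 1)) / 2) = true := by
      have e1 : (A * 2 ^ (g + 2) + (2 ^ (g + 1) - 1)) / 2 = (2 * A + 1) * 2 ^ g - 1 := by
        have e3 : A * 2 ^ (g + 2) = 2 * (2 * A * 2 ^ g) := by
          rw [pow_add]; ring
        have e4 : 2 ^ (g + 1) = 2 * 2 ^ g := by rw [pow_succ, mul_comm]
        have e5 : (2 * A + 1) * 2 ^ g = 2 * A * 2 ^ g + 2 ^ g := by ring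
        omega
      rw [e1, u_val hu]
      simp [hg]
    have h4 := Pl_two hu hm
    have h5 := Pl_compl hu e _ _ r hr h4
    have e6 : (A * 2 ^ (g + 2) + (2 ^ (g + 1) - 1)) * 2 ^ e + (2 ^ e - 1 - r) =
        A * 2 ^ (e + g + 2) + (2 ^ (e + g + 1) - 1 - r) := by
      have e7 : (A * 2 ^ (g + 2) + (2 ^ (g + 1) - 1)) * 2 ^ e =
          A * 2 ^ (e + g + 2) + (2 ^ (g + 1) - 1) * 2 ^ e := by
        rw [add_mul, mul_assoc, ← pow_add]
        congr 3
        ring
      have e8 : (2 ^ (g + 1) - 1) * 2 ^ e = 2 ^ (e + g + 1) - 2 ^ e := by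
        rw [Nat.sub_mul, ← pow_add, one_mul]
        congr 2
        ring
      rw [e7, e8]
      omega
    have e9 : (A * 2 ^ (g + 2) + (2 ^ (g + 1) - 1) + 2) * 2 ^ e + r =
        A * 2 ^ (e + g + 2) + 2 ^ (e + g + 1) + 2 ^ e + r := by
      have e10 : A * 2 ^ (g + 2) + (2 ^ (g + 1) - 1) + 2 = A * 2 ^ (g + 2) + 2 ^ (g + 1) + 1 := by
        have : 0 < 2 ^ (g + 1) := Nat.two_pow_pos _
        omega
      rw [e10, add_mul, add_mul, mul_assoc, ← pow_add, ← pow_add, one_mul]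
      have e11 : g + 2 + e = e + g + 2 := by ring
      have e12 : g + 1 + e = e + g + 1 := by ring
      rw [e11, e12]
    rw [e6, e9] at h5
    exact h5
  exact Reach.step (Reach.step h (by omega) h1) (by omega) h3

/-- number with ones at the multiples `G r`, `s ≤ r < t` -/
def blk (G s t : ℕ) : ℕ := ∑ r ∈ Finset.Ico s t, 2 ^ (G * r)

theorem blk_self (G s : ℕ) : blk G s s = 0 := by
  unfold blk; simp

theorem blk_top (G : ℕ) {s t : ℕ} (h : s ≤ t) : blk G s (t + 1) = blk G s t + 2 ^ (G * t) := by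
  unfold blk
  rw [Finset.sum_Ico_succ_top h]

theorem blk_bot (G : ℕ) {s t : ℕ} (h : s < t) : blk G s t = 2 ^ (G * s) + blk G (s + 1) t := by
  unfold blk
  rw [Finset.sum_eq_sum_Ico_succ_bot h]

theorem blk_add (G : ℕ) {s t v : ℕ} (h1 : s ≤ t) (h2 : t ≤ v) :
    blk G s v = blk G s t + blk G t v := by
  unfold blk
  rw [Finset.sum_Ico_consecutive _ h1 h2]

theorem blk_lt {G : ℕ} (hG : 2 ≤ G) (s t : ℕ) : 2 * blk G s t < 2 ^ (G * t) := by
  induction t with
  | zero =>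
    unfold blk
    simp
  | succ t ih =>
    by_cases h : s ≤ t
    · rw [blk_top G h]
      have h1 : 2 ^ (G * t) * 4 ≤ 2 ^ (G * (t + 1)) := by
        have e1 : G * (t + 1) = G * t + 2 + (G - 2) := by
          rw [mul_add, mul_one]; omega
        rw [e1, pow_add, pow_add]
        have : 0 < 2 ^ (G - 2) := Nat.two_pow_pos _
        calc 2 ^ (G * t) * 4 = 2 ^ (G * t) * 2 ^ 2 * 1 := by norm_num
          _ ≤ 2 ^ (G * t) * 2 ^ 2 * 2 ^ (G - 2) := Nat.mul_le_mul_left _ this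
      have : 0 < 2 ^ (G * t) := Nat.two_pow_pos _
      omega
    · have h1 : blk G s (t + 1) = 0 := by
        unfold blk
        rw [Finset.Ico_eq_empty (by omega)]
        simp
      rw [h1]
      positivity

theorem blk_dvd (G : ℕ) (s t : ℕ) : 2 ^ (G * s) ∣ blk G s t := by
  unfold blk
  refine Finset.dvd_sum ?_
  intro r hr
  rw [Finset.mem_Ico] at hr
  exact pow_dvd_pow 2 (Nat.mul_le_mul_left G hr.1)

theorem blk_pair (hu : ∀ n : ℕ, u (2 * n) = false ∧ u (2 * n + 1) = !(u n)) {G : ℕ}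
    (hG : 2 ≤ G) {K s t M Z : ℕ} (hst : s ≤ t) (htM : t < M) (hMZ : M < Z)
    (hpar : (M - t) % 2 = 0) (h : Reach u K (blk G s t + blk G (M + 1) Z)) :
    Reach u (K + 2) (blk G s (t + 1) + blk G M Z) := by
  obtain ⟨B, hB⟩ := blk_dvd G (M + 1) Z
  have hgap : G * M = G * t + (G * (M - t) - 1) + 1 := by
    have h1 : G * M = G * t + G * (M - t) := by
      rw [← mul_add]; congr 1; omega
    have h2 : 1 ≤ G * (M - t) := by
      have : 1 * 1 ≤ G * (M - t) := Nat.mul_le_mul (by omega) (by omega)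
      omega
    omega
  have hpar' : (G * (M - t) - 1) % 2 = 1 := by
    have h1 : (G * (M - t)) % 2 = 0 := by
      rw [Nat.mul_mod, hpar]; simp
    have h2 : 1 ≤ G * (M - t) := by
      have : 1 * 1 ≤ G * (M - t) := Nat.mul_le_mul (by omega) (by omega)
      omega
    omega
  have hA : blk G (M + 1) Z = (2 ^ (G - 1) * B) * 2 ^ (G * t + (G * (M - t) - 1) + 2) := by
    rw [hB]
    have e1 : G * (M + 1) = (G - 1) + (G * t + (G * (M - t) - 1) + 2) := by
      rw [mul_add, mul_one]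
      omega
    rw [e1, pow_add]
    ring
  have hlt : blk G s t < 2 ^ (G * t) := by
    have := blk_lt hG s t
    omega
  have h1 := step_pair hu (K := K) (A := 2 ^ (G - 1) * B) (e := G * t)
    (g := G * (M - t) - 1) (r := blk G s t) hlt hpar' (by
      rw [← hA, add_comm]; exact h)
  rw [← hA, ← hgap] at h1
  rw [blk_top G hst, blk_bot G hMZ]
  have e2 : blk G s t + 2 ^ (G * t) + (2 ^ (G * M) + blk G (M + 1) Z) =
      blk G (M + 1) Z + 2 ^ (G * M) + 2 ^ (G * t) + blk G s t := by ring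
  rw [e2]
  exact h1

theorem blk_single (hu : ∀ n : ℕ, u (2 * n) = false ∧ u (2 * n + 1) = !(u n)) {G : ℕ}
    (hG : 2 ≤ G) {K s t Z : ℕ} (hst : s ≤ t) (ht : 1 ≤ t) (htZ : t < Z)
    (h : Reach u K (blk G s t + blk G (t + 1) Z)) :
    Reach u (K + 2) (blk G s Z) := by
  obtain ⟨B, hB⟩ := blk_dvd G (t + 1) Z
  have hGt : 2 ≤ G * t := by
    have : 2 * 1 ≤ G * t := Nat.mul_le_mul hG ht
    omega
  have hgap : G * t = (G * t - 1) + 1 := by omega
  have hA : blk G (t + 1) Z = (2 ^ (G - 1) * B) * 2 ^ ((G * t - 1) + 2) := by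
    rw [hB]
    have e1 : G * (t + 1) = (G - 1) + ((G * t - 1) + 2) := by
      rw [mul_add, mul_one]
      omega
    rw [e1, pow_add]
    ring
  have hlt : blk G s t < 2 ^ (G * t - 1) := by
    have h1 := blk_lt hG s t
    rw [hgap, pow_succ] at h1
    omega
  have h1 := step_single hu (K := K) (A := 2 ^ (G - 1) * B) (p := G * t - 1)
    (r := blk G s t) hlt (by
      rw [← hA, add_comm]; exact h)
  rw [← hA, ← hgap] at h1
  rw [blk_add G hst (le_of_lt htZ), blk_bot G htZ]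
  have e2 : blk G s t + (2 ^ (G * t) + blk G (t + 1) Z) =
      blk G (t + 1) Z + 2 ^ (G * t) + blk G s t := by ring
  rw [e2]
  exact h1

theorem blk_nested (hu : ∀ n : ℕ, u (2 * n) = false ∧ u (2 * n + 1) = !(u n)) {G : ℕ}
    (hG : 2 ≤ G) : ∀ v K s t M Z : ℕ, s ≤ t → t + v ≤ M → (M - (t + v)) % 2 = 1 →
      M + v ≤ Z → Reach u K (blk G s t + blk G (M + v) Z) →
      Reach u (K + 2 * v) (blk G s (t + v) + blk G M Z) := by
  intro v
  induction v with
  | zero =>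
    intro K s t M Z _ _ _ _ h
    simpa using h
  | succ v ih =>
    intro K s t M Z h1 h2 h3 h4 h
    have h5 := ih K s t (M + 1) Z h1 (by omega) (by omega) (by omega) (by
      have e1 : M + 1 + v = M + (v + 1) := by ring
      rw [e1]; exact h)
    have h6 := blk_pair hu hG (K := K + 2 * v) (s := s) (t := t + v) (M := M) (Z := Z)
      (by omega) (by omega) (by omega) (by omega) h5
    have e2 : K + 2 * (v + 1) = K + 2 * v + 2 := by ring
    have e3 : t + (v + 1) = t + v + 1 := by ring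
    rw [e2, e3]
    exact h6

/-- the numbers of the family -/
def nn (G i j : ℕ) : ℕ := blk G 1 (2 * j + 1) + blk G (2 * j + 2) (2 * j + 2 + 2 * i)

theorem reach_eq (hu : ∀ n : ℕ, u (2 * n) = false ∧ u (2 * n + 1) = !(u n)) {G : ℕ}
    (hG : 2 ≤ G) (j : ℕ) : Reach u (4 * j) (nn G j j) := by
  have h1 := blk_nested hu hG (2 * j) 0 1 1 (2 * j + 2) (2 * j + 2 + 2 * j) (by omega)
    (by omega) (by omega) (by omega) (by
      rw [blk_self, blk_self]; exact Reach.zero)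
  have e1 : 0 + 2 * (2 * j) = 4 * j := by ring
  have e2 : 1 + 2 * j = 2 * j + 1 := by ring
  rw [e1, e2] at h1
  exact h1

theorem reach_block (hu : ∀ n : ℕ, u (2 * n) = false ∧ u (2 * n + 1) = !(u n)) {G : ℕ}
    (hG : 2 ≤ G) (a h : ℕ) (ha : 1 ≤ a) (hh : 1 ≤ h) :
    Reach u (2 * h + 2) (blk G a (a + 2 * h)) := by
  have h1 := blk_single hu hG (K := 0) (s := a + 2 * h - 1) (t := a + 2 * h - 1)
    (Z := a + 2 * h) le_rfl (by omega) (by omega) (by
      have e1 : a + 2 * h - 1 + 1 = a + 2 * h := by omega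
      rw [e1, blk_self, blk_self]; exact Reach.zero)
  have h2 := blk_nested hu hG (h - 1) 2 a a (a + h) (a + 2 * h) le_rfl (by omega) (by omega)
    (by omega) (by
      have e1 : a + h + (h - 1) = a + 2 * h - 1 := by omega
      rw [e1, blk_self, zero_add]
      exact h1)
  have h3 := blk_single hu hG (K := 2 + 2 * (h - 1)) (s := a) (t := a + (h - 1))
    (Z := a + 2 * h) (by omega) (by omega) (by omega) (by
      have e1 : a + (h - 1) + 1 = a + h := by omega
      rw [e1]; exact h2)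
  have e3 : 2 + 2 * (h - 1) + 2 = 2 * h + 2 := by omega
  rw [e3] at h3
  exact h3

theorem reach_ne (hu : ∀ n : ℕ, u (2 * n) = false ∧ u (2 * n + 1) = !(u n)) {G : ℕ}
    (hG : 2 ≤ G) (i j : ℕ) (hij : j < i) : Reach u (2 * i + 2 * j + 2) (nn G i j) := by
  have h1 := reach_block hu hG (4 * j + 2) (i - j) (by omega) (by omega)
  have h2 := blk_nested hu hG (2 * j) (2 * (i - j) + 2) 1 1 (2 * j + 2) (2 * j + 2 + 2 * i)
    le_rfl (by omega) (by omega) (by omega) (by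
      have e1 : 2 * j + 2 + 2 * j = 4 * j + 2 := by ring
      have e2 : 2 * j + 2 + 2 * i = 4 * j + 2 + 2 * (i - j) := by omega
      rw [e1, e2, blk_self, zero_add]
      exact h1)
  have e3 : 2 * (i - j) + 2 + 2 * (2 * j) = 2 * i + 2 * j + 2 := by omega
  have e4 : 1 + 2 * j = 2 * j + 1 := by ring
  rw [e3, e4] at h2
  exact h2

theorem blk_shift (G m : ℕ) : ∀ l : ℕ, blk G m (m + l) = 2 ^ (G * m) * blk G 0 l := by
  intro l
  induction l with
  | zero => simp [blk_self]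
  | succ l ih =>
    have e1 : m + (l + 1) = m + l + 1 := by ring
    rw [e1, blk_top G (by omega), ih, blk_top G (Nat.zero_le l), mul_add (2 ^ (G * m)), ← pow_add]
    congr 2
    ring

theorem nn_decomp (G i j : ℕ) :
    nn G i j = 2 ^ (G * (2 * j + 2)) * blk G 0 (2 * i) + blk G 1 (2 * j + 1) := by
  unfold nn
  rw [blk_shift G (2 * j + 2) (2 * i), add_comm]

theorem nn_low_lt {G : ℕ} (hG : 2 ≤ G) (j : ℕ) :
    blk G 1 (2 * j + 1) < 2 ^ (G * (2 * j + 2)) := by
  have h1 := blk_lt hG 1 (2 * j + 1)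
  have h2 : 2 ^ (G * (2 * j + 1)) ≤ 2 ^ (G * (2 * j + 2)) :=
    Nat.pow_le_pow_right (by norm_num) (Nat.mul_le_mul_left G (by omega))
  omega

theorem nn_testBit {G : ℕ} (hG : 0 < G) (i j b : ℕ) :
    (nn G i j).testBit b = true ↔ ∃ r, b = G * r ∧
      ((1 ≤ r ∧ r < 2 * j + 1) ∨ (2 * j + 2 ≤ r ∧ r < 2 * j + 2 + 2 * i)) := by
  have h1 : nn G i j = ∑ b ∈ ((Finset.Ico 1 (2 * j + 1) ∪
      Finset.Ico (2 * j + 2) (2 * j + 2 + 2 * i)).image (fun r => G * r)), 2 ^ b := by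
    rw [Finset.sum_image]
    · rw [Finset.sum_union]
      · rfl
      · rw [Finset.disjoint_left]
        intro a ha hb
        rw [Finset.mem_Ico] at ha hb
        omega
    · intro a _ b _ hab
      exact Nat.eq_of_mul_eq_mul_left hG hab
  rw [← Nat.mem_bitIndices, ← List.mem_toFinset, h1, Finset.toFinset_bitIndices_sum_two_pow,
    Finset.mem_image]
  constructor
  · rintro ⟨r, hr, rfl⟩
    refine ⟨r, rfl, ?_⟩
    rw [Finset.mem_union, Finset.mem_Ico, Finset.mem_Ico] at hr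
    exact hr
  · rintro ⟨r, rfl, hr⟩
    refine ⟨r, ?_, rfl⟩
    rw [Finset.mem_union, Finset.mem_Ico, Finset.mem_Ico]
    exact hr

end

end Pool.Agent.H606PD
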