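import Pool.Agent.H606PD.LB
import Pool.Agent.H606PD.UB

set_option autoImplicit false

namespace Pool.Agent.H606PD

/-- the positions of the ones of `nn G i j`, in decreasing order -/
def qq (G i j s : ℕ) : ℕ :=
  if s < 2 * i then G * (2 * j + 1 + 2 * i - s) else G * (2 * j + 2 * i - s)

theorem exists_clean {K G lo : ℕ} (P : ℕ → ℕ) (E : ℕ → Option ℕ) (h : 2 * K + 1 < G) :
    ∃ c, lo < c ∧ c < lo + G ∧ (∀ t, t < K → P t ≠ c) ∧ (∀ t, t < K → E t ≠ some c) := by
  have h1 : (((Finset.range K).image P) ∪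
      ((Finset.range K).image (fun t => (E t).getD 0))).card < (Finset.Ioo lo (lo + G)).card := by
    have h2 := Finset.card_union_le ((Finset.range K).image P)
      ((Finset.range K).image (fun t => (E t).getD 0))
    have h3 : ((Finset.range K).image P).card ≤ K := by
      have := Finset.card_image_le (s := Finset.range K) (f := P)
      rwa [Finset.card_range] at this
    have h4 : ((Finset.range K).image (fun t => (E t).getD 0)).card ≤ K := by
      have := Finset.card_image_le (s := Finset.range K) (f := fun t => (E t).getD 0)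
      rwa [Finset.card_range] at this
    rw [Nat.card_Ioo]
    omega
  obtain ⟨c, hc1, hc2⟩ := Finset.exists_mem_notMem_of_card_lt_card h1
  rw [Finset.mem_Ioo] at hc1
  refine ⟨c, hc1.1, hc1.2, ?_, ?_⟩
  · intro t ht hP
    apply hc2
    rw [Finset.mem_union]
    left
    rw [Finset.mem_image]
    exact ⟨t, Finset.mem_range.mpr ht, hP⟩
  · intro t ht hE
    apply hc2
    rw [Finset.mem_union]
    right
    rw [Finset.mem_image]
    refine ⟨t, Finset.mem_range.mpr ht, ?_⟩
    simp only [hE, Option.getD_some]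

theorem W_first {G i j : ℕ} (hG : G % 2 = 1) : ∀ m, m ≤ i →
    W (qq G i j) (2 * m) = -(m : ℤ) := by
  intro m
  induction m with
  | zero => intro _; simp [W]
  | succ m ih =>
    intro hm
    have h1 := ih (by omega)
    have e1 : 2 * (m + 1) = 2 * m + 1 + 1 := by ring
    rw [e1, W, W, h1]
    have h2 : qq G i j (2 * m) % 2 = 1 := by
      unfold qq
      rw [if_pos (by omega), Nat.mul_mod, hG, one_mul, Nat.mod_mod]
      omega
    have h3 : qq G i j (2 * m + 1) % 2 = 0 := by
      unfold qq
      rw [if_pos (by omega), Nat.mul_mod, hG, one_mul, Nat.mod_mod]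
      omega
    unfold Lf
    rw [h2, h3]
    push_cast
    simp
    ring

theorem W_second {G i j : ℕ} (hG : G % 2 = 1) : ∀ m, m ≤ j →
    W (qq G i j) (2 * i + 2 * m) = (m : ℤ) - (i : ℤ) := by
  intro m
  induction m with
  | zero =>
    intro _
    rw [mul_zero, add_zero, W_first hG i le_rfl]
    simp
  | succ m ih =>
    intro hm
    have h1 := ih (by omega)
    have e1 : 2 * i + 2 * (m + 1) = 2 * i + 2 * m + 1 + 1 := by ring
    rw [e1, W, W, h1]
    have h2 : qq G i j (2 * i + 2 * m) % 2 = 0 := by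
      unfold qq
      rw [if_neg (by omega), Nat.mul_mod, hG, one_mul, Nat.mod_mod]
      omega
    have h3 : qq G i j (2 * i + 2 * m + 1) % 2 = 1 := by
      unfold qq
      rw [if_neg (by omega), Nat.mul_mod, hG, one_mul, Nat.mod_mod]
      omega
    unfold Lf
    rw [h2, h3]
    push_cast
    simp
    ring

section
variable {u : ℕ → Bool}

theorem lower (hu : ∀ n : ℕ, u (2 * n) = false ∧ u (2 * n + 1) = !(u n)) {G i j K : ℕ}
    (hG : G % 2 = 1) (hGb : 2 * (2 * i + 2 * j) + 1 < G) (h : Reach u K (nn G i j)) :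
    2 * i + 2 * j ≤ K ∧ (K = 2 * i + 2 * j → i = j) := by
  by_cases hK : K ≤ 2 * i + 2 * j
  swap
  · exact ⟨by omega, fun h => absurd h (by omega)⟩
  obtain ⟨x, P, E, T, hx⟩ := reach_timeline hu h
  have hG0 : 0 < G := by omega
  -- the clean levels
  have hcl : ∀ lo, ∃ c, lo < c ∧ c < lo + G ∧ (∀ t, t < K → P t ≠ c) ∧
      (∀ t, t < K → E t ≠ some c) := fun lo => exists_clean P E (by omega)
  choose cl hcl1 hcl2 hcl3 hcl4 using hcl
  -- the top level
  obtain ⟨top, htop1, htop2⟩ : ∃ top, (∀ t, t < K → P t < top) ∧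
      G * (2 * j + 2 * i + 2) < top := by
    refine ⟨(∑ t ∈ Finset.range K, P t) + G * (2 * j + 2 * i + 2) + 1, ?_, by omega⟩
    intro t ht
    have := Finset.single_le_sum (f := P) (fun _ _ => Nat.zero_le _) (Finset.mem_range.mpr ht)
    omega
  have hbit : ∀ b, x K b = true → ∃ r, b = G * r ∧
      ((1 ≤ r ∧ r < 2 * j + 1) ∨ (2 * j + 2 ≤ r ∧ r < 2 * j + 2 + 2 * i)) := by
    intro b hb
    rw [hx b, nn_testBit hG0] at hb
    exact hb
  have hbit' : ∀ r, ((1 ≤ r ∧ r < 2 * j + 1) ∨ (2 * j + 2 ≤ r ∧ r < 2 * j + 2 + 2 * i)) →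
      x K (G * r) = true := by
    intro r hr
    rw [hx, nn_testBit hG0]
    exact ⟨r, rfl, hr⟩
  -- description of the positions
  have hqq : ∀ s, s < 2 * i + 2 * j → ∃ m, qq G i j s = G * (m + 1) ∧
      ((s < 2 * i ∧ m + s = 2 * j + 2 * i) ∨ (2 * i ≤ s ∧ m + 1 + s = 2 * j + 2 * i)) := by
    intro s hs
    unfold qq
    by_cases h1 : s < 2 * i
    · rw [if_pos h1]
      refine ⟨2 * j + 2 * i - s, ?_, by omega⟩
      congr 1
      omega
    · rw [if_neg h1]
      refine ⟨2 * j + 2 * i - s - 1, ?_, by omega⟩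
      congr 1
      omega
  have hclq : ∀ m, G * m < cl (G * (m + 1) - G) ∧ cl (G * (m + 1) - G) < G * (m + 1) := by
    intro m
    have h1 : G * (m + 1) - G = G * m := by
      rw [mul_add, mul_one]; omega
    rw [h1]
    refine ⟨hcl1 _, ?_⟩
    have := hcl2 (G * m)
    rw [mul_add, mul_one]
    exact this
  have hlt_of : ∀ a b, G * a < G * b → a < b := fun a b h => Nat.lt_of_mul_lt_mul_left h
  have hle_of : ∀ a b, a ≤ b → G * a ≤ G * b := fun a b h => Nat.mul_le_mul_left G h
  have hk := main_lb T (2 * i + 2 * j) (qq G i j)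
    (fun s => if s = 0 then top else cl (qq G i j (s - 1) - G)) ?_ ?_ ?_ ?_ ?_
  · refine ⟨hk.1, ?_⟩
    intro h1
    have h2 := hk.2 h1
    rw [W_second hG j le_rfl] at h2
    omega
  · -- condition 1
    intro s hs
    obtain ⟨m, hm1, hm2⟩ := hqq s hs
    refine ⟨?_, ?_⟩
    · simp only [Nat.add_one_ne_zero, if_false, Nat.add_sub_cancel]
      rw [hm1]
      exact (hclq m).2
    · by_cases hs0 : s = 0
      · simp only [hs0, if_true]
        rw [← hs0, hm1]
        have := hle_of (m + 1) (2 * j + 2 * i + 2) (by omega)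
        omega
      · simp only [hs0, if_false]
        obtain ⟨m', hm1', hm2'⟩ := hqq (s - 1) (by omega)
        rw [hm1, hm1']
        have h1 := (hclq m').1
        have h2 := hle_of (m + 1) m' (by omega)
        omega
  · -- condition 2
    intro s hs
    by_cases hs0 : s = 0
    · simp only [hs0, if_true]
      refine ⟨?_, ?_, ?_⟩
      · intro t ht hP
        have := htop1 t ht
        omega
      · intro t ht hE
        have h1 := htop1 t ht
        have h2 := T.exc_lt t ht _ hE
        omega
      · by_contra hb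
        have hb' : x K top = true := by simpa using hb
        obtain ⟨r, hr1, hr2⟩ := hbit _ hb'
        have := hle_of r (2 * j + 2 * i + 2) (by omega)
        omega
    · simp only [hs0, if_false]
      obtain ⟨m', hm1', hm2'⟩ := hqq (s - 1) (by omega)
      refine ⟨hcl3 _, hcl4 _, ?_⟩
      by_contra hb
      have hb' : x K (cl (qq G i j (s - 1) - G)) = true := by simpa using hb
      obtain ⟨r, hr1, hr2⟩ := hbit _ hb'
      rw [hm1'] at hr1
      have h1 := hclq m'
      rw [hr1] at h1
      have h2 := hlt_of _ _ h1.1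
      have h3 := hlt_of _ _ h1.2
      omega
  · -- condition 3
    intro s hs
    obtain ⟨m, hm1, hm2⟩ := hqq s hs
    rw [hm1]
    exact hbit' (m + 1) (by omega)
  · -- condition 4
    intro s hs b hb1 hb2 hb3
    by_contra hb
    have hb' : x K b = true := by simpa using hb
    obtain ⟨r, hr1, hr2⟩ := hbit _ hb'
    obtain ⟨m, hm1, hm2⟩ := hqq s hs
    simp only [Nat.add_one_ne_zero, if_false, Nat.add_sub_cancel] at hb1
    rw [hm1] at hb1 hb3
    have h1 := (hclq m).1
    rw [hr1] at hb1 hb3
    have h2 := hlt_of m r (by omega)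
    have h3 : r ≠ m + 1 := by
      rintro rfl
      exact hb3 rfl
    by_cases hs0 : s = 0
    · omega
    · simp only [hs0, if_false] at hb2
      obtain ⟨m', hm1', hm2'⟩ := hqq (s - 1) (by omega)
      rw [hm1', hr1] at hb2
      have h4 := (hclq m').2
      have h5 := hlt_of r (m' + 1) (by omega)
      omega
  · -- condition 5
    intro t ht
    simp only [if_true]
    exact htop1 t ht

end

end Pool.Agent.H606PD
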