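import Pool.Agent.H606PD.LB2

set_option autoImplicit false

namespace Pool.Agent.H606PD

section
variable {u : ℕ → Bool}

theorem ofFn_eq (u : ℕ → Bool) (n : ℕ) :
    List.ofFn (fun i : Fin n => u i.val) = (List.range n).map u := by
  apply List.ext_getElem
  · simp
  · intro i h1 h2
    simp

/-- the factor between two boundaries -/
def fac (u : ℕ → Bool) (m n : ℕ) : List Bool := (List.range (n - m)).map (fun i => u (m + i))

theorem fac_length (m n : ℕ) : (fac u m n).length = n - m := by
  unfold fac
  simp

theorem fac_getElem {m n k : ℕ} (h : k < (fac u m n).length) : (fac u m n)[k]'h = u (m + k) := by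
  simp [fac]

theorem fac_reverse {m n : ℕ} (h : Pl u m n) : (fac u m n).reverse = fac u m n := by
  unfold fac
  apply List.ext_getElem
  · simp
  · intro i h1 h2
    simp only [List.length_reverse, List.length_map, List.length_range] at h1
    simp only [List.getElem_reverse, List.getElem_map, List.getElem_range, List.length_map,
      List.length_range]
    exact (h (m + i) (m + (n - m - 1 - i)) (by omega) (by omega) (by omega)).symm

theorem range_split (u : ℕ → Bool) {m n : ℕ} (h : m ≤ n) :
    (List.range n).map u = (List.range m).map u ++ fac u m n := by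
  unfold fac
  obtain ⟨k, rfl⟩ := Nat.exists_eq_add_of_le h
  rw [List.range_add, List.map_append, List.map_map, Nat.add_sub_cancel_left]
  rfl

theorem list_of_reach {K n : ℕ} (h : Reach u K n) : ∃ L : List (List Bool), L.length = K ∧
    (∀ w ∈ L, w.reverse = w) ∧ L.flatten = List.ofFn (fun i : Fin n => u i.val) := by
  induction h with
  | zero => exact ⟨[], rfl, by simp, by simp⟩
  | @step K m n _ hmn hP ih =>
    obtain ⟨L, h1, h2, h3⟩ := ih
    refine ⟨L ++ [fac u m n], by simp [h1], ?_, ?_⟩
    · intro w hw
      rw [List.mem_append] at hw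
      rcases hw with hw | hw
      · exact h2 w hw
      · rw [List.mem_singleton] at hw
        rw [hw]
        exact fac_reverse hP
    · rw [List.flatten_append, h3, ofFn_eq, ofFn_eq, range_split u (le_of_lt hmn)]
      simp

theorem reach_of_list : ∀ (L : List (List Bool)) (n : ℕ), (∀ w ∈ L, w.reverse = w) →
    L.flatten = List.ofFn (fun i : Fin n => u i.val) → ∃ K, K ≤ L.length ∧ Reach u K n := by
  intro L
  induction L using List.reverseRecOn with
  | nil =>
    intro n _ h
    have hn : n = 0 := by
      have := congrArg List.length h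
      simp at this
      omega
    subst hn
    exact ⟨0, by simp, Reach.zero⟩
  | append_singleton L w ih =>
    intro n hpal h
    rw [ofFn_eq, List.flatten_append] at h
    simp only [List.flatten_cons, List.flatten_nil, List.append_nil] at h
    have hlen := congrArg List.length h
    simp only [List.length_append, List.length_map, List.length_range] at hlen
    have hmn : L.flatten.length ≤ n := by omega
    rw [range_split u hmn] at h
    have h1 := List.append_inj h (by simp)
    obtain ⟨K, hK1, hK2⟩ := ih L.flatten.length
      (fun w' hw' => hpal w' (List.mem_append_left _ hw')) (by rw [ofFn_eq]; exact h1.1)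
    by_cases hw : L.flatten.length = n
    · rw [hw] at hK2
      exact ⟨K, by simp; omega, hK2⟩
    · refine ⟨K + 1, by simp; omega, Reach.step hK2 (by omega) ?_⟩
      have h2 := hpal w (by simp)
      rw [h1.2] at h2
      intro i j hij hi hj
      have h3 : i - L.flatten.length < (fac u L.flatten.length n).length := by
        rw [fac_length]
        omega
      have h4 : i - L.flatten.length < (fac u L.flatten.length n).reverse.length := by
        rw [List.length_reverse]; exact h3
      have h5 := List.getElem_of_eq h2 h4
      rw [List.getElem_reverse, fac_getElem, fac_getElem, fac_length] at h5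
      have e1 : L.flatten.length + (i - L.flatten.length) = i := by omega
      have e2 : L.flatten.length +
          (n - L.flatten.length - 1 - (i - L.flatten.length)) = j := by omega
      rw [e1, e2] at h5
      exact h5.symm

theorem p_bounds {p : ℕ → ℕ}
    (hp : ∀ n : ℕ, IsLeast {k : ℕ | ∃ L : List (List Bool), L.length = k ∧
            (∀ w ∈ L, w.reverse = w) ∧
            L.flatten = List.ofFn (fun i : Fin n => u i.val)} (p n)) (n : ℕ) :
    (∃ K, K ≤ p n ∧ Reach u K n) ∧ (∀ K, Reach u K n → p n ≤ K) := by
  constructor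
  · obtain ⟨L, h1, h2, h3⟩ := (hp n).1
    obtain ⟨K, hK1, hK2⟩ := reach_of_list L n h2 h3
    exact ⟨K, by omega, hK2⟩
  · intro K hK
    exact (hp n).2 (list_of_reach hK)

theorem p_eq (hu : ∀ n : ℕ, u (2 * n) = false ∧ u (2 * n + 1) = !(u n)) {p : ℕ → ℕ}
    (hp : ∀ n : ℕ, IsLeast {k : ℕ | ∃ L : List (List Bool), L.length = k ∧
            (∀ w ∈ L, w.reverse = w) ∧
            L.flatten = List.ofFn (fun i : Fin n => u i.val)} (p n)) {G j : ℕ}
    (hG : G % 2 = 1) (hGb : 2 * (2 * j + 2 * j) + 1 < G) : p (nn G j j) = 4 * j := by
  obtain ⟨⟨K, h1, h2⟩, h3⟩ := p_bounds hp (nn G j j)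
  have h4 := h3 _ (reach_eq hu (G := G) (by omega) j)
  have h5 := lower hu hG hGb h2
  omega

theorem p_ne (hu : ∀ n : ℕ, u (2 * n) = false ∧ u (2 * n + 1) = !(u n)) {p : ℕ → ℕ}
    (hp : ∀ n : ℕ, IsLeast {k : ℕ | ∃ L : List (List Bool), L.length = k ∧
            (∀ w ∈ L, w.reverse = w) ∧
            L.flatten = List.ofFn (fun i : Fin n => u i.val)} (p n)) {G i j : ℕ}
    (hG : G % 2 = 1) (hGb : 2 * (2 * i + 2 * j) + 1 < G) (hij : j < i) :
    p (nn G i j) = 2 * i + 2 * j + 1 ∨ p (nn G i j) = 2 * i + 2 * j + 2 := by
  obtain ⟨⟨K, h1, h2⟩, h3⟩ := p_bounds hp (nn G i j)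
  have h4 := h3 _ (reach_ne hu (G := G) (by omega) i j hij)
  have h5 := lower hu hG hGb h2
  omega

end

end Pool.Agent.H606PD
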