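import Pool.Agent.H606PD.Lists

set_option autoImplicit false

namespace Pool.Agent.H606PD

/-- reduction mod 3 of a sequence -/
def red (f : ℕ → ℤ) : ℕ → ZMod 3 := fun n => (f n : ZMod 3)

theorem red_finite {S : Set (ℕ → ℤ)} (h : (Submodule.span ℤ S).FG) :
    (red '' (Submodule.span ℤ S : Set (ℕ → ℤ))).Finite := by
  obtain ⟨s, hs⟩ := h
  have h1 : red '' (Submodule.span ℤ S : Set (ℕ → ℤ)) ⊆
      Set.range (fun c : (s → ZMod 3) => fun n => ∑ i, c i * ((i.val n : ℤ) : ZMod 3)) := by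
    rintro _ ⟨f, hf, rfl⟩
    rw [← hs, SetLike.mem_coe, Submodule.mem_span_finset'] at hf
    obtain ⟨g, rfl⟩ := hf
    refine ⟨fun i => (g i : ZMod 3), ?_⟩
    funext n
    unfold red
    simp only [Finset.sum_apply, Pi.smul_apply, smul_eq_mul]
    push_cast
    rfl
  exact (Set.finite_range _).subset h1

theorem main (u : ℕ → Bool) (hu : ∀ n : ℕ, u (2 * n) = false ∧ u (2 * n + 1) = !(u n))
    (p : ℕ → ℕ)
    (hp : ∀ n : ℕ, IsLeast {k : ℕ | ∃ L : List (List Bool), L.length = k ∧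
            (∀ w ∈ L, w.reverse = w) ∧
            L.flatten = List.ofFn (fun i : Fin n => u i.val)} (p n)) :
    ¬ (Submodule.span ℤ {f : ℕ → ℤ | ∃ e r : ℕ, r < 2 ^ e ∧
            f = fun n : ℕ => ((p (2 ^ e * n + r) : ℕ) : ℤ)}).FG := by
  intro hFG
  have hfin := red_finite hFG
  set F := hfin.toFinset with hF
  -- the number of residues
  set N := 3 * F.card + 1 with hN
  set G := 8 * N + 3 with hG
  have hG1 : G % 2 = 1 := by omega
  have hG2 : 2 ≤ G := by omega
  -- pigeonhole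
  let ker : ℕ → (ℕ → ℤ) := fun j n =>
    ((p (2 ^ (G * (2 * j + 2)) * n + blk G 1 (2 * j + 1)) : ℕ) : ℤ)
  have hker : ∀ j, red (ker j) ∈ F := by
    intro j
    rw [hF, Set.Finite.mem_toFinset]
    refine ⟨ker j, ?_, rfl⟩
    refine Submodule.subset_span ?_
    exact ⟨G * (2 * j + 2), blk G 1 (2 * j + 1), nn_low_lt hG2 j, rfl⟩
  obtain ⟨j1, hj1, j2, hj2, hne, heq⟩ := Finset.exists_ne_map_eq_of_card_lt_of_maps_to
    (s := Finset.range N) (t := F ×ˢ Finset.range 3)
    (f := fun j => (red (ker j), j % 3)) (by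
      rw [Finset.card_product, Finset.card_range, Finset.card_range]
      omega) (by
      intro j _
      rw [Finset.mem_coe, Finset.mem_product]
      exact ⟨hker j, Finset.mem_range.mpr (Nat.mod_lt _ (by norm_num))⟩)
  rw [Finset.mem_range] at hj1 hj2
  have key : ∀ i j : ℕ, i < N → j < N → j < i → red (ker j) = red (ker i) → j % 3 = i % 3 →
      False := by
    intro i j hi hj hji h1 h2
    have h3 := congrFun h1 (blk G 0 (2 * i))
    have h4 : ker j (blk G 0 (2 * i)) = ((p (nn G i j) : ℕ) : ℤ) := by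
      rw [nn_decomp]
    have h5 : ker i (blk G 0 (2 * i)) = ((p (nn G i i) : ℕ) : ℤ) := by
      rw [nn_decomp]
    unfold red at h3
    rw [h4, h5, p_eq hu hp hG1 (by omega), Int.cast_natCast, Int.cast_natCast,
      ZMod.natCast_eq_natCast_iff'] at h3
    rcases p_ne hu hp (G := G) hG1 (by omega) hji with h6 | h6
    · rw [h6] at h3
      omega
    · rw [h6] at h3
      omega
  have h1 : red (ker j1) = red (ker j2) := congrArg Prod.fst heq
  have h2 : j1 % 3 = j2 % 3 := congrArg Prod.snd heq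
  rcases Nat.lt_or_gt_of_ne hne with h | h
  · exact key j2 j1 hj2 hj1 h h1 h2
  · exact key j1 j2 hj1 hj2 h h1.symm h2.symm

end Pool.Agent.H606PD
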