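import Pool.Agent.H606PD.TL

set_option autoImplicit false

namespace Pool.Agent.H606PD

/-- the factor of `u` between the boundaries `m` and `n` is a palindrome -/
def Pl (u : ℕ → Bool) (m n : ℕ) : Prop :=
  ∀ i j, i + j + 1 = m + n → m ≤ i → i < n → u i = u j

section
variable {u : ℕ → Bool}

theorem Pl_half (hu : ∀ n : ℕ, u (2 * n) = false ∧ u (2 * n + 1) = !(u n)) {m n : ℕ}
    (hmn : (m + n) % 2 = 1) : Pl u m n ↔ Pl u (m / 2) (n / 2) := by
  constructor
  · intro h i j hij hi hj
    have h1 := h (2 * i + 1) (2 * j + 1) (by omega) (by omega) (by omega)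
    rw [(hu i).2, (hu j).2] at h1
    revert h1
    cases u i <;> cases u j <;> simp
  · intro h i j hij hi hj
    by_cases hp : i % 2 = 0
    · obtain ⟨a, rfl⟩ : ∃ a, i = 2 * a := ⟨i / 2, by omega⟩
      obtain ⟨b, rfl⟩ : ∃ b, j = 2 * b := ⟨j / 2, by omega⟩
      rw [(hu a).1, (hu b).1]
    · obtain ⟨a, rfl⟩ : ∃ a, i = 2 * a + 1 := ⟨i / 2, by omega⟩
      obtain ⟨b, rfl⟩ : ∃ b, j = 2 * b + 1 := ⟨j / 2, by omega⟩
      rw [(hu a).2, (hu b).2, h a b (by omega) (by omega) (by omega)]

theorem Pl_even (hu : ∀ n : ℕ, u (2 * n) = false ∧ u (2 * n + 1) = !(u n)) {m n : ℕ}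
    (hlt : m < n) (hmn : (m + n) % 2 = 0) (h : Pl u m n) : n = m + 2 ∧ u (m / 2) = true := by
  have hall : ∀ i, m ≤ i → i < n → u i = false := by
    intro i hi1 hi2
    by_cases hp : i % 2 = 0
    · obtain ⟨a, rfl⟩ : ∃ a, i = 2 * a := ⟨i / 2, by omega⟩
      exact (hu a).1
    · have h1 := h i (m + n - 1 - i) (by omega) hi1 hi2
      obtain ⟨b, hb⟩ : ∃ b, m + n - 1 - i = 2 * b := ⟨(m + n - 1 - i) / 2, by omega⟩
      rw [h1, hb]
      exact (hu b).1
  have hodd : ∀ y, m ≤ 2 * y + 1 → 2 * y + 1 < n → u y = true := by
    intro y h1 h2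
    have h3 := hall (2 * y + 1) h1 h2
    rw [(hu y).2] at h3
    revert h3
    cases u y <;> simp
  refine ⟨?_, hodd (m / 2) (by omega) (by omega)⟩
  by_contra hne
  have h1 := hodd (m / 2) (by omega) (by omega)
  have h2 := hodd (m / 2 + 1) (by omega) (by omega)
  by_cases hp : (m / 2) % 2 = 0
  · obtain ⟨a, ha⟩ : ∃ a, m / 2 = 2 * a := ⟨m / 2 / 2, by omega⟩
    rw [ha, (hu a).1] at h1
    exact absurd h1 (by simp)
  · obtain ⟨a, ha⟩ : ∃ a, m / 2 + 1 = 2 * a := ⟨(m / 2 + 1) / 2, by omega⟩
    rw [ha, (hu a).1] at h2
    exact absurd h2 (by simp)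

theorem Pl_two (hu : ∀ n : ℕ, u (2 * n) = false ∧ u (2 * n + 1) = !(u n)) {m : ℕ}
    (h : u (m / 2) = true) : Pl u m (m + 2) := by
  have h1 : u m = false := by
    by_cases hp : m % 2 = 0
    · obtain ⟨a, ha⟩ : ∃ a, m = 2 * a := ⟨m / 2, by omega⟩
      rw [ha]; exact (hu a).1
    · have ha : m = 2 * (m / 2) + 1 := by omega
      rw [ha, (hu _).2, h]; rfl
  have h2 : u (m + 1) = false := by
    by_cases hp : m % 2 = 0
    · have ha : m + 1 = 2 * (m / 2) + 1 := by omega
      rw [ha, (hu _).2, h]; rfl
    · obtain ⟨a, ha⟩ : ∃ a, m + 1 = 2 * a := ⟨(m + 1) / 2, by omega⟩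
      rw [ha]; exact (hu a).1
  intro i j hij hi hj
  have h3 : (i = m ∧ j = m + 1) ∨ (i = m + 1 ∧ j = m) := by omega
  rcases h3 with ⟨rfl, rfl⟩ | ⟨rfl, rfl⟩
  · rw [h1, h2]
  · rw [h1, h2]

theorem succ_bits (hu : ∀ n : ℕ, u (2 * n) = false ∧ u (2 * n + 1) = !(u n)) :
    ∀ y : ℕ, ∃ v : ℕ, (∀ j, j < v → y.testBit j = true) ∧ y.testBit v = false ∧
      (∀ j, (y + 1).testBit j = xor (y.testBit j) (decide (j ≤ v))) ∧
      u y = decide (v % 2 = 1) := by
  intro y
  induction y using Nat.strong_induction_on with
  | _ y ih =>
    by_cases hp : y % 2 = 0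
    · refine ⟨0, fun j hj => by omega, ?_, ?_, ?_⟩
      · rw [Nat.testBit_zero]; simp [hp]
      · intro j
        cases j with
        | zero =>
          rw [Nat.testBit_zero, Nat.testBit_zero]
          have : (y + 1) % 2 = 1 := by omega
          simp [hp, this]
        | succ j =>
          rw [Nat.testBit_succ, Nat.testBit_succ]
          have : (y + 1) / 2 = y / 2 := by omega
          rw [this]
          simp
      · obtain ⟨a, ha⟩ : ∃ a, y = 2 * a := ⟨y / 2, by omega⟩
        rw [ha, (hu a).1]
        simp
    · have hy : y = 2 * (y / 2) + 1 := by omega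
      obtain ⟨v, h1, h2, h3, h4⟩ := ih (y / 2) (by omega)
      refine ⟨v + 1, ?_, ?_, ?_, ?_⟩
      · intro j hj
        cases j with
        | zero =>
          rw [Nat.testBit_zero]
          have : y % 2 = 1 := by omega
          simp [this]
        | succ j =>
          rw [Nat.testBit_succ]
          exact h1 j (by omega)
      · rw [Nat.testBit_succ]; exact h2
      · intro j
        cases j with
        | zero =>
          rw [Nat.testBit_zero, Nat.testBit_zero]
          have h5 : y % 2 = 1 := by omega
          have h6 : ¬ (y + 1) % 2 = 1 := by omega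
          simp [h5]
          omega
        | succ j =>
          rw [Nat.testBit_succ, Nat.testBit_succ]
          have : (y + 1) / 2 = y / 2 + 1 := by omega
          rw [this, h3 j]
          simp
      · rw [hy, (hu _).2, h4]
        by_cases hv : v % 2 = 1
        · have h6 : ¬ (v + 1) % 2 = 1 := by omega
          simp [hv, h6]
        · have h6 : (v + 1) % 2 = 1 := by omega
          simp [hv, h6]

/-- bit description of a move -/
structure Mv (m n P : ℕ) (E : Option ℕ) : Prop where
  top : m.testBit P = false
  flip : ∀ j, n.testBit j = xor (m.testBit j) (decide (j ≤ P ∧ E ≠ some j))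
  exc_lt : ∀ e, E = some e → e < P
  exc_par : ∀ e, E = some e → P % 2 = e % 2
  exc_one : ∀ e, E = some e → ∀ j, e < j → j < P → m.testBit j = true

theorem exists_move (hu : ∀ n : ℕ, u (2 * n) = false ∧ u (2 * n + 1) = !(u n)) :
    ∀ n m : ℕ, m < n → Pl u m n → ∃ P E, Mv m n P E := by
  intro n
  induction n using Nat.strong_induction_on with
  | _ n ih =>
    intro m hmn h
    by_cases hp : (m + n) % 2 = 0
    · obtain ⟨h1, h2⟩ := Pl_even hu hmn hp h
      obtain ⟨v, h3, h4, h5, h6⟩ := succ_bits hu (m / 2)
      rw [h2] at h6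
      have h7 : v % 2 = 1 := by
        by_contra hcon
        simp [hcon] at h6
      refine ⟨v + 1, some 0, ?_, ?_, ?_, ?_, ?_⟩
      · rw [Nat.testBit_succ]; exact h4
      · intro j
        cases j with
        | zero =>
          rw [Nat.testBit_zero, Nat.testBit_zero, h1]
          simp
        | succ j =>
          rw [Nat.testBit_succ, Nat.testBit_succ]
          have h8 : n / 2 = m / 2 + 1 := by omega
          rw [h8, h5 j]
          simp
      · intro e he
        injection he with he
        omega
      · intro e he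
        injection he with he
        omega
      · intro e he j hj1 hj2
        injection he with he
        obtain ⟨i, rfl⟩ : ∃ i, j = i + 1 := ⟨j - 1, by omega⟩
        rw [Nat.testBit_succ]
        exact h3 i (by omega)
    · have hp' : (m + n) % 2 = 1 := by omega
      have h1 := (Pl_half hu hp').mp h
      by_cases heq : m / 2 = n / 2
      · refine ⟨0, none, ?_, ?_, ?_, ?_, ?_⟩
        · rw [Nat.testBit_zero]
          have : ¬ m % 2 = 1 := by omega
          simp [this]
        · intro j
          cases j with
          | zero =>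
            rw [Nat.testBit_zero, Nat.testBit_zero]
            have h2 : ¬ m % 2 = 1 := by omega
            have h3 : n % 2 = 1 := by omega
            simp [h3]
            omega
          | succ j =>
            rw [Nat.testBit_succ, Nat.testBit_succ, heq]
            simp
        · intro e he; exact absurd he (by simp)
        · intro e he; exact absurd he (by simp)
        · intro e he; exact absurd he (by simp)
      · obtain ⟨P, E, hM⟩ := ih (n / 2) (by omega) (m / 2) (by omega) h1
        refine ⟨P + 1, E.map (· + 1), ?_, ?_, ?_, ?_, ?_⟩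
        · rw [Nat.testBit_succ]; exact hM.top
        · intro j
          cases j with
          | zero =>
            rw [Nat.testBit_zero, Nat.testBit_zero]
            have h2 : (0 ≤ P + 1 ∧ Option.map (· + 1) E ≠ some 0) := by
              refine ⟨by omega, ?_⟩
              cases E with
              | none => simp
              | some e => simp
            rw [decide_eq_true h2]
            by_cases h3 : m % 2 = 1
            · have h4 : ¬ n % 2 = 1 := by omega
              simp [h3, h4]
            · have h4 : n % 2 = 1 := by omega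
              simp [h3, h4]
          | succ j =>
            rw [Nat.testBit_succ, Nat.testBit_succ, hM.flip j]
            congr 1
            cases E with
            | none => simp
            | some e => simp
        · intro e he
          cases E with
          | none => simp at he
          | some e' =>
            simp at he
            have := hM.exc_lt e' rfl
            omega
        · intro e he
          cases E with
          | none => simp at he
          | some e' =>
            simp at he
            have := hM.exc_par e' rfl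
            omega
        · intro e he j hj1 hj2
          cases E with
          | none => simp at he
          | some e' =>
            simp at he
            obtain ⟨i, rfl⟩ : ∃ i, j = i + 1 := ⟨j - 1, by omega⟩
            rw [Nat.testBit_succ]
            exact hM.exc_one e' rfl i (by omega) (by omega)

/-- reachability of the boundary `n` from `0` by exactly `K` nonempty palindromes -/
inductive Reach (u : ℕ → Bool) : ℕ → ℕ → Prop
  | zero : Reach u 0 0
  | step {K m n : ℕ} : Reach u K m → m < n → Pl u m n → Reach u (K + 1) n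

theorem reach_seq {K n : ℕ} (h : Reach u K n) : ∃ s : ℕ → ℕ, s 0 = 0 ∧ s K = n ∧
    ∀ t, t < K → s t < s (t + 1) ∧ Pl u (s t) (s (t + 1)) := by
  induction h with
  | zero => exact ⟨fun _ => 0, rfl, rfl, fun t ht => by omega⟩
  | @step K m n _ hmn hP ih =>
    obtain ⟨s, h0, hK, hs⟩ := ih
    refine ⟨fun t => if t ≤ K then s t else n, by simp [h0], by simp, ?_⟩
    intro t ht
    by_cases h1 : t < K
    · have h2 : t ≤ K := by omega
      have h3 : t + 1 ≤ K := by omega
      simp only [if_pos h2, if_pos h3]
      exact hs t h1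
    · have h2 : t = K := by omega
      subst h2
      simp only [le_refl, if_true]
      rw [if_neg (by omega), hK]
      exact ⟨hmn, hP⟩

theorem reach_timeline (hu : ∀ n : ℕ, u (2 * n) = false ∧ u (2 * n + 1) = !(u n)) {K n : ℕ}
    (h : Reach u K n) : ∃ (x : ℕ → ℕ → Bool) (P : ℕ → ℕ) (E : ℕ → Option ℕ),
      Timeline K x P E ∧ ∀ j, x K j = n.testBit j := by
  obtain ⟨s, h0, hK, hs⟩ := reach_seq h
  have hex : ∀ t, ∃ PE : ℕ × Option ℕ, t < K → Mv (s t) (s (t + 1)) PE.1 PE.2 := by
    intro t
    by_cases ht : t < K
    · obtain ⟨P, E, hM⟩ := exists_move hu _ _ (hs t ht).1 (hs t ht).2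
      exact ⟨(P, E), fun _ => hM⟩
    · exact ⟨(0, none), fun h => absurd h ht⟩
  choose PE hPE using hex
  refine ⟨fun t j => (s t).testBit j, fun t => (PE t).1, fun t => (PE t).2, ?_, ?_⟩
  · refine ⟨?_, ?_, ?_, ?_, ?_, ?_⟩
    · intro j; rw [h0]; simp
    · intro t ht; exact (hPE t ht).top
    · intro t ht j; exact (hPE t ht).flip j
    · intro t ht e he; exact (hPE t ht).exc_lt e he
    · intro t ht e he; exact (hPE t ht).exc_par e he
    · intro t ht e he j h1 h2; exact (hPE t ht).exc_one e he j h1 h2
  · intro j
    show (s K).testBit j = n.testBit j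
    rw [hK]

end

end Pool.Agent.H606PD
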