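import Pool.Agent.H606PD.TL

set_option autoImplicit false

namespace Pool.Agent.H606PD

section
variable {K : ℕ} {x : ℕ → ℕ → Bool} {P : ℕ → ℕ} {E : ℕ → Option ℕ}

theorem down {t a c : ℕ}
    (h : ∀ j, a ≤ j → j < c → Al x P E (j + 1) t → Al x P E j t) (hac : a ≤ c)
    (hc : Al x P E c t) : Al x P E a t := by
  obtain ⟨n, rfl⟩ := Nat.exists_eq_add_of_le hac
  clear hac
  induction n with
  | zero => simpa using hc
  | succ n ih =>
    refine ih ?_ ?_
    · intro j h1 h2 h3
      exact h j h1 (by omega) h3
    · exact h (a + n) (by omega) (by omega) hc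

theorem seg_common (T : Timeline K x P E) {a r c θ : ℕ} (haq : a < r + 1) (hqc : r + 1 < c)
    (hc : Clean K x P E c)
    (hρ : ∀ t, t ≤ K → xor (x t r) (x t (r + 1)) = decide (θ < t))
    (hexq : ∀ t, t < K → E t = some (r + 1) → t = θ)
    (hex : ∀ j, r + 1 < j → j ≤ c → NoExc K E j)
    (hnd : ∀ t, t < K → t ≠ θ → ∀ j, a ≤ j → j < c → Al x P E (j + 1) t → Al x P E j t)
    (hndθ : ∀ j, r + 2 ≤ j → j < c → Al x P E (j + 1) θ → Al x P E j θ)
    (hP1 : P θ ≠ r + 1) (hP2 : P θ ≠ r + 2)
    (hP3 : ∀ t, t < K → t ≠ θ → a ≤ P t → r + 1 ≤ P t)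
    (hθa : ¬ Al x P E a θ) :
    (∀ t, t < K → (Al x P E a t ↔ (P t = r + 1 ∨ (Al x P E c t ∧ t ≠ θ)))) ∧
    (∀ t, t < K → P t = r + 1 → θ < t) ∧
    (∀ t, t < K → Al x P E c t → t ≠ θ → t < θ) ∧
    (∀ j, r + 2 ≤ j → j ≤ c → NoIns K P j) := by
  have h1 : ∀ t, t < K → Al x P E (r + 2) t → t ≠ θ → t < θ := by
    intro t ht hA hne
    have h2 := hnd t ht hne (r + 1) (by omega) (by omega) hA
    have h3 := hnd t ht hne r (by omega) (by omega) h2
    have h4 : x t (r + 1) = true := (h3.2 (r + 1) (by omega) (by have := hA.1; omega)).1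
    have h5 : x t r = true := (h3.2 r (by omega) (by have := hA.1; omega)).1
    have h6 := hρ t (by omega)
    rw [h4, h5] at h6
    have h7 : ¬ θ < t := by
      intro h8
      simp [h8] at h6
    omega
  have h2 : ∀ t, t < K → P t = r + 1 → θ < t := by
    intro t ht hP
    have hne : t ≠ θ := by
      rintro rfl
      exact hP1 hP
    have h3 := hnd t ht hne r (by omega) (by omega) (Al_self' hP)
    have h4 : x t r = true := (h3.2 r (by omega) (by omega)).1
    have h5 := T.top t ht
    rw [hP] at h5
    have h6 := hρ t (by omega)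
    rw [h4, h5] at h6
    by_contra h8
    simp [h8] at h6
  have h3 : NoIns K P (r + 2) := by
    intro t ht hP
    have hne : t ≠ θ := by
      rintro rfl
      exact hP2 hP
    have h4 := h1 t ht (Al_self' hP) hne
    have h5 := hnd t ht hne (r + 1) (by omega) (by omega) (Al_self' hP)
    have h6 : x t (r + 1) = true := (h5.2 (r + 1) (by omega) (by omega)).1
    have h7 := T.top t ht
    rw [hP] at h7
    have h8 := rho T (r + 1) t (by omega)
    rw [par_none t, h6, h7] at h8
    · exact absurd h8 (by simp)
    · intro s hs
      refine ev_none ?_ ?_ ?_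
      · intro h9
        have := h2 s (by omega) h9
        omega
      · intro h9
        have := hexq s (by omega) h9
        omega
      · exact hex (r + 2) (by omega) (by omega) s (by omega)
  have h4 : ∀ j, r + 2 ≤ j → j ≤ c → NoIns K P j := by
    intro j hj
    induction j, hj using Nat.le_induction with
    | base => intro _; exact h3
    | succ j hj ih =>
      intro hjc
      refine chainA T (ih (by omega)) (hex j (by omega) (by omega))
        (hex (j + 1) (by omega) (by omega)) ?_
      intro t ht hP
      by_cases hne : t = θ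
      · subst hne
        have h5 := hndθ j hj (by omega) (Al_self' hP)
        exact (h5.2 j le_rfl (by omega)).1
      · have h5 := hnd t ht hne j (by omega) (by omega) (Al_self' hP)
        exact (h5.2 j le_rfl (by omega)).1
  have h5 : ∀ t, t < K → Al x P E (r + 2) t → Al x P E c t := by
    intro t ht hA
    refine Al_mono hA (by omega) ?_
    by_contra hlt
    exact h4 (P t) hA.1 (by omega) t ht rfl
  refine ⟨?_, h2, ?_, h4⟩
  · intro t ht
    constructor
    · intro hA
      have hne : t ≠ θ := by
        rintro rfl
        exact hθa hA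
      have h6 := hP3 t ht hne hA.1
      by_cases h7 : P t = r + 1
      · left; exact h7
      · right
        refine ⟨h5 t ht (Al_mono hA (by omega) (by omega)), hne⟩
    · rintro (h6 | ⟨h6, hne⟩)
      · have hne : t ≠ θ := by
          rintro rfl
          exact hP1 h6
        exact down (fun j hj1 hj2 => hnd t ht hne j hj1 (by omega)) (c := r + 1) (by omega)
          (Al_self' h6)
      · exact down (hnd t ht hne) (by omega) h6
  · intro t ht hA hne
    refine h1 t ht ?_ hne
    exact down (fun j hj1 hj2 => hnd t ht hne j (by omega) hj2) (by omega) hA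

theorem seg_unique (T : Timeline K x P E) {a q c θ d : ℕ} (haq : a < q) (hqc : q < c)
    (ha : Clean K x P E a) (hc : Clean K x P E c) (hq : x K q = true)
    (hb : ∀ j, a ≤ j → j ≤ c → j ≠ q → x K j = false)
    (hθ : θ < K) (had : a ≤ d) (hdc : d < c) (hθ1 : Al x P E (d + 1) θ)
    (hθ2 : ¬ Al x P E d θ)
    (huniq : ∀ t, t < K → ∀ j, a ≤ j → j < c → Al x P E (j + 1) t → ¬ Al x P E j t →
      t = θ ∧ j = d) :
    (∀ t, t < K → (Al x P E a t ↔ (P t = q ∨ (Al x P E c t ∧ t ≠ θ)))) ∧
    (∀ t, t < K → P t = q → θ < t) ∧
    (∀ t, t < K → Al x P E c t → t ≠ θ → t < θ) ∧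
    ((Al x P E c θ ∧ P θ % 2 = q % 2 ∧ par (fun s => decide (P s = q)) K = false) ∨
     (¬ Al x P E c θ ∧ par (fun s => decide (P s = q)) K = true)) := by
  obtain ⟨r, rfl⟩ : ∃ r, q = r + 1 := ⟨q - 1, by omega⟩
  -- no exceptions away from d
  have hexd : ∀ j, a ≤ j → j ≤ c → ∀ t, t < K → E t = some j → t = θ ∧ j = d := by
    intro j hj1 hj2 t ht hE
    by_cases hjc : j = c
    · subst hjc; exact absurd hE (hc.exc t ht)
    · exact huniq t ht j hj1 (by omega) (exc_alive T ht hE) (exc_dead (T.exc_lt t ht j hE) hE)
  have hnoexc : ∀ j, a ≤ j → j ≤ c → j ≠ d → NoExc K E j := by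
    intro j hj1 hj2 hjd t ht hE
    exact hjd (hexd j hj1 hj2 t ht hE).2
  have hnd : ∀ t, t < K → t ≠ θ → ∀ j, a ≤ j → j < c → Al x P E (j + 1) t → Al x P E j t := by
    intro t ht hne j hj1 hj2 hA
    by_contra hcon
    exact hne (huniq t ht j hj1 hj2 hA hcon).1
  have hnd' : ∀ t, t < K → ∀ j, a ≤ j → j < c → j ≠ d → Al x P E (j + 1) t → Al x P E j t := by
    intro t ht j hj1 hj2 hjd hA
    by_contra hcon
    exact hjd (huniq t ht j hj1 hj2 hA hcon).2
  have hnda : ¬ Al x P E a θ := by
    intro hA
    exact hθ2 (Al_mono hA had (by have := hθ1.1; omega))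
  -- Step 1: no insertions below d, and bits zero
  have step1 : ∀ j, a ≤ j → j < d → NoIns K P j ∧ x K j = false := by
    intro j hj
    induction j, hj using Nat.le_induction with
    | base => intro _; exact ⟨ha.ins, ha.bit⟩
    | succ j hj ih =>
      intro hjd
      have h1 := ih (by omega)
      have h2 := rho_none T h1.1 (hnoexc j hj (by omega) (by omega))
        (hnoexc (j + 1) (by omega) (by omega) (by omega)) (t := K) le_rfl
      refine ⟨?_, by rw [← h2]; exact h1.2⟩
      refine chainA T h1.1 (hnoexc j hj (by omega) (by omega))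
        (hnoexc (j + 1) (by omega) (by omega) (by omega)) ?_
      intro t ht hP
      have h3 := hnd' t ht j hj (by omega) (by omega) (Al_self' hP)
      exact (h3.2 j le_rfl (by omega)).1
  have hdq : d ≤ r + 1 := by
    by_contra hcon
    have := (step1 (r + 1) (by omega) (by omega)).2
    rw [this] at hq
    exact absurd hq (by simp)
  by_cases hE : E θ = some d
  · -- pop case
    have had' : a < d := by
      by_contra hcon
      have h1 : d = a := by omega
      exact ha.exc θ hθ (by rw [hE, h1])
    obtain ⟨e, rfl⟩ : ∃ e, d = e + 1 := ⟨d - 1, by omega⟩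
    have hPθ := T.exc_lt θ hθ _ hE
    have hPpar := T.exc_par θ hθ _ hE
    have hρ' : ∀ t, t ≤ K → xor (x t e) (x t (e + 1)) = decide (θ < t) := by
      intro t ht
      rw [rho T e t ht]
      refine par_one θ t ?_
      intro s hs
      by_cases hsθ : s = θ
      · subst hsθ
        rw [ev_exc' hPθ hE]
        simp
      · rw [ev_none ((step1 e (by omega) (by omega)).1 s (by omega))
          (hnoexc e (by omega) (by omega) (by omega) s (by omega))]
        · simp [hsθ]
        · intro h1
          exact hsθ (hexd (e + 1) (by omega) (by omega) s (by omega) h1).1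
    have her : e = r := by
      by_contra hne
      have h1 := hρ' K le_rfl
      rw [(step1 e (by omega) (by omega)).2, hb (e + 1) (by omega) (by omega) (by omega)] at h1
      simp [hθ] at h1
    subst her
    have hcom := seg_common T (a := a) (r := e) (c := c) (θ := θ) haq hqc hc hρ'
      (fun t ht h1 => (hexd (e + 1) (by omega) (by omega) t ht h1).1)
      (fun j hj1 hj2 => hnoexc j (by omega) hj2 (by omega)) hnd
      (fun j hj1 hj2 hA => hnd' θ hθ j (by omega) hj2 (by omega) hA)
      (by omega) (by omega)
      (by
        intro t ht hne hat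
        by_contra hcon
        exact (step1 (P t) hat (by omega)).1 t ht rfl) hnda
    refine ⟨hcom.1, hcom.2.1, hcom.2.2.1, ?_⟩
    left
    refine ⟨?_, hPpar, ?_⟩
    · refine Al_mono hθ1 (by omega) ?_
      by_contra hlt
      exact hcom.2.2.2 (P θ) (by omega) (by omega) θ hθ rfl
    · have h1 := rho T (e + 1) K le_rfl
      rw [hq, hb (e + 1 + 1) (by omega) (by omega) (by omega)] at h1
      have h2 : par (ev P E (e + 1)) K =
          par (fun s => xor (decide (P s = e + 1)) (decide (s = θ))) K := by
        refine par_congr K ?_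
        intro s hs
        by_cases hsθ : s = θ
        · subst hsθ
          have h3 : P s ≠ e + 1 := by omega
          rw [ev_exc hPθ hE]
          simp [h3]
        · have h4 : E s ≠ some (e + 1) := by
            intro h5
            exact hsθ (hexd (e + 1) (by omega) (by omega) s hs h5).1
          by_cases h3 : P s = e + 1
          · rw [ev_ins h3 h4]
            simp [h3, hsθ]
          · rw [ev_none h3 h4 (hnoexc (e + 1 + 1) (by omega) (by omega) (by omega) s hs)]
            simp [h3, hsθ]
      rw [h2, par_xor (f := fun s => decide (P s = e + 1)) (g := fun s => decide (s = θ))] at h1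
      have h5 : par (fun s => decide (s = θ)) K = true := by
        rw [par_one θ K (fun s _ => rfl)]
        simp [hθ]
      rw [h5] at h1
      revert h1
      cases par (fun s => decide (P s = e + 1)) K <;> simp
  · -- push case
    have hnoexc' : ∀ j, a ≤ j → j ≤ c → NoExc K E j := by
      intro j hj1 hj2 t ht h1
      obtain ⟨h2, h3⟩ := hexd j hj1 hj2 t ht h1
      subst h2; subst h3
      exact hE h1
    have hd : NoIns K P d ∧ x K d = false := by
      by_cases had' : d = a
      · subst had'; exact ⟨ha.ins, ha.bit⟩
      · obtain ⟨e, rfl⟩ : ∃ e, d = e + 1 := ⟨d - 1, by omega⟩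
        have h1 := step1 e (by omega) (by omega)
        have h2 := rho_none T h1.1 (hnoexc' e (by omega) (by omega))
          (hnoexc' (e + 1) (by omega) (by omega)) (t := K) le_rfl
        refine ⟨?_, by rw [← h2]; exact h1.2⟩
        refine chainA T h1.1 (hnoexc' e (by omega) (by omega))
          (hnoexc' (e + 1) (by omega) (by omega)) ?_
        intro t ht hP
        have h3 := hnd' t ht e (by omega) (by omega) (by omega) (Al_self' hP)
        exact (h3.2 e le_rfl (by omega)).1
    have hdq1 : d ≠ r + 1 := by
      intro h1
      rw [← h1, hd.2] at hq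
      exact absurd hq (by simp)
    have hρd : ∀ t, t ≤ K → x t d = x t (d + 1) := by
      intro t ht
      exact rho_none T hd.1 (hnoexc' d (by omega) (by omega))
        (hnoexc' (d + 1) (by omega) (by omega)) ht
    have hd1 : x K (d + 1) = false := by rw [← hρd K le_rfl]; exact hd.2
    have hdq2 : d + 1 ≠ r + 1 := by
      intro h1
      rw [← h1, hd1] at hq
      exact absurd hq (by simp)
    have hPd : ∀ t, t < K → P t = d + 1 → t = θ := by
      intro t ht hP
      have h1 := T.top t ht
      rw [hP, ← hρd t (by omega)] at h1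
      have h2 : ¬ Al x P E d t := by
        intro h3
        have h4 := (h3.2 d le_rfl (by omega)).1
        rw [h1] at h4
        exact absurd h4 (by simp)
      exact (huniq t ht d had hdc (Al_self' hP) h2).1
    have hPθ : P θ = d + 1 := by
      by_contra hcon
      have h1 : NoIns K P (d + 1) := by
        intro t ht hP
        have h2 := hPd t ht hP
        subst h2
        exact hcon hP
      have h2 : ∀ j, d + 1 ≤ j → j ≤ r + 1 → NoIns K P j ∧ x K j = false := by
        intro j hj
        induction j, hj using Nat.le_induction with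
        | base => intro _; exact ⟨h1, hd1⟩
        | succ j hj ih =>
          intro hjr
          have h3 := ih (by omega)
          have h4 := rho_none T h3.1 (hnoexc' j (by omega) (by omega))
            (hnoexc' (j + 1) (by omega) (by omega)) (t := K) le_rfl
          refine ⟨?_, by rw [← h4]; exact h3.2⟩
          refine chainA T h3.1 (hnoexc' j (by omega) (by omega))
            (hnoexc' (j + 1) (by omega) (by omega)) ?_
          intro t ht hP
          have h5 := hnd' t ht j (by omega) (by omega) (by omega) (Al_self' hP)
          exact (h5.2 j le_rfl (by omega)).1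
      have h3 := (h2 (r + 1) (by omega) le_rfl).2
      rw [h3] at hq
      exact absurd hq (by simp)
    have hρ' : ∀ t, t ≤ K → xor (x t (d + 1)) (x t (d + 1 + 1)) = decide (θ < t) := by
      intro t ht
      rw [rho T (d + 1) t ht]
      refine par_one θ t ?_
      intro s hs
      by_cases hsθ : s = θ
      · subst hsθ
        rw [ev_ins hPθ (hnoexc' (d + 1) (by omega) (by omega) s hθ)]
        simp
      · rw [ev_none (fun h1 => hsθ (hPd s (by omega) h1))
          (hnoexc' (d + 1) (by omega) (by omega) s (by omega))
          (hnoexc' (d + 1 + 1) (by omega) (by omega) s (by omega))]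
        simp [hsθ]
    have her : d + 1 = r := by
      by_contra hne
      have h1 := hρ' K le_rfl
      rw [hd1, hb (d + 1 + 1) (by omega) (by omega) (by omega)] at h1
      simp [hθ] at h1
    subst her
    have hcom := seg_common T (a := a) (r := d + 1) (c := c) (θ := θ) haq hqc hc hρ'
      (fun t ht h1 => absurd h1 (hnoexc' _ (by omega) (by omega) t ht))
      (fun j hj1 hj2 => hnoexc' j (by omega) hj2) hnd
      (fun j hj1 hj2 hA => hnd' θ hθ j (by omega) hj2 (by omega) hA)
      (by omega) (by omega)
      (by
        intro t ht hne hat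
        by_contra hcon
        by_cases h1 : P t = d + 1
        · exact hne (hPd t ht h1)
        · by_cases h2 : P t = d
          · exact hd.1 t ht h2
          · exact (step1 (P t) hat (by omega)).1 t ht rfl) hnda
    refine ⟨hcom.1, hcom.2.1, hcom.2.2.1, ?_⟩
    right
    refine ⟨?_, ?_⟩
    · intro h1
      have := h1.1
      omega
    · have h1 := rho T (d + 1 + 1) K le_rfl
      rw [hq, hb (d + 1 + 1 + 1) (by omega) (by omega) (by omega)] at h1
      have h2 : par (ev P E (d + 1 + 1)) K = par (fun s => decide (P s = d + 1 + 1)) K := by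
        refine par_congr K ?_
        intro s hs
        by_cases h3 : P s = d + 1 + 1
        · rw [ev_ins h3 (hnoexc' _ (by omega) (by omega) s hs)]
          simp [h3]
        · rw [ev_none h3 (hnoexc' _ (by omega) (by omega) s hs)
            (hnoexc' _ (by omega) (by omega) s hs)]
          simp [h3]
      rw [h2] at h1
      revert h1
      cases par (fun s => decide (P s = d + 1 + 1)) K <;> simp

end

end Pool.Agent.H606PD
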