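import Mathlib

set_option autoImplicit false

namespace Pool.Agent.H606PD

/-- parity of the number of `s < t` with `f s = true` -/
def par (f : ℕ → Bool) : ℕ → Bool
  | 0 => false
  | t + 1 => xor (par f t) (f t)

theorem par_none {f : ℕ → Bool} : ∀ t : ℕ, (∀ s, s < t → f s = false) → par f t = false := by
  intro t
  induction t with
  | zero => intro _; rfl
  | succ t ih =>
    intro h
    have h1 := ih (fun s hs => h s (by omega))
    have h2 := h t (by omega)
    simp [par, h1, h2]

theorem par_one {f : ℕ → Bool} (θ : ℕ) : ∀ t : ℕ, (∀ s, s < t → f s = decide (s = θ)) →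
    par f t = decide (θ < t) := by
  intro t
  induction t with
  | zero => intro _; simp [par]
  | succ t ih =>
    intro h
    have h1 := ih (fun s hs => h s (by omega))
    have h2 := h t (by omega)
    rw [par, h1, h2]
    by_cases h3 : θ < t
    · have h4 : ¬ t = θ := by omega
      have h5 : θ < t + 1 := by omega
      simp [h3, h4, h5]
    · by_cases h4 : t = θ
      · have h5 : θ < t + 1 := by omega
        simp [h3, h4]
      · have h5 : ¬ θ < t + 1 := by omega
        simp [h3, h4, h5]

theorem par_congr {f g : ℕ → Bool} : ∀ t : ℕ, (∀ s, s < t → f s = g s) → par f t = par g t := by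
  intro t
  induction t with
  | zero => intro _; rfl
  | succ t ih =>
    intro h
    rw [par, par, ih (fun s hs => h s (by omega)), h t (by omega)]

theorem par_xor {f g : ℕ → Bool} : ∀ t : ℕ,
    par (fun s => xor (f s) (g s)) t = xor (par f t) (par g t) := by
  intro t
  induction t with
  | zero => rfl
  | succ t ih =>
    simp only [par, ih]
    cases par f t <;> cases par g t <;> cases f t <;> cases g t <;> rfl

/-- A timeline of `K` moves. `x t j` is bit `j` of the state at time `t`. Move `t` flips all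
bits `≤ P t` except possibly the one at `E t`. -/
structure Timeline (K : ℕ) (x : ℕ → ℕ → Bool) (P : ℕ → ℕ) (E : ℕ → Option ℕ) : Prop where
  zero : ∀ j, x 0 j = false
  top : ∀ t, t < K → x t (P t) = false
  flip : ∀ t, t < K → ∀ j, x (t + 1) j = xor (x t j) (decide (j ≤ P t ∧ E t ≠ some j))
  exc_lt : ∀ t, t < K → ∀ e, E t = some e → e < P t
  exc_par : ∀ t, t < K → ∀ e, E t = some e → P t % 2 = e % 2
  exc_one : ∀ t, t < K → ∀ e, E t = some e → ∀ j, e < j → j < P t → x t j = true

/-- alive at level `j` -/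
def Al (x : ℕ → ℕ → Bool) (P : ℕ → ℕ) (E : ℕ → Option ℕ) (j t : ℕ) : Prop :=
  j ≤ P t ∧ ∀ i, j ≤ i → i < P t → x t i = true ∧ E t ≠ some i

/-- the event separating levels `j` and `j+1` -/
def ev (P : ℕ → ℕ) (E : ℕ → Option ℕ) (j s : ℕ) : Bool :=
  xor (decide (j ≤ P s ∧ E s ≠ some j)) (decide (j + 1 ≤ P s ∧ E s ≠ some (j + 1)))

theorem ev_none {P : ℕ → ℕ} {E : ℕ → Option ℕ} {j s : ℕ} (h1 : P s ≠ j) (h2 : E s ≠ some j)
    (h3 : E s ≠ some (j + 1)) : ev P E j s = false := by
  unfold ev
  by_cases h : j ≤ P s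
  · have h' : j + 1 ≤ P s := by omega
    simp [h, h', h2, h3]
  · have h' : ¬ j + 1 ≤ P s := by omega
    simp [h, h']

theorem ev_ins {P : ℕ → ℕ} {E : ℕ → Option ℕ} {j s : ℕ} (h1 : P s = j) (h2 : E s ≠ some j) :
    ev P E j s = true := by
  unfold ev
  simp [h1, h2]

theorem ev_exc {P : ℕ → ℕ} {E : ℕ → Option ℕ} {j s : ℕ} (h1 : j < P s) (h2 : E s = some j) :
    ev P E j s = true := by
  unfold ev
  have h' : j + 1 ≤ P s := h1
  simp [h2, h']

theorem ev_exc' {P : ℕ → ℕ} {E : ℕ → Option ℕ} {j s : ℕ} (h1 : j + 1 < P s)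
    (h2 : E s = some (j + 1)) : ev P E j s = true := by
  unfold ev
  have h' : j ≤ P s := by omega
  simp [h2, h']

section
variable {K : ℕ} {x : ℕ → ℕ → Bool} {P : ℕ → ℕ} {E : ℕ → Option ℕ}

theorem rho (T : Timeline K x P E) (j : ℕ) : ∀ t, t ≤ K →
    xor (x t j) (x t (j + 1)) = par (ev P E j) t := by
  intro t
  induction t with
  | zero => intro _; simp [T.zero, par]
  | succ t ih =>
    intro ht
    have h1 := ih (by omega)
    rw [par, ← h1, T.flip t (by omega) j, T.flip t (by omega) (j + 1)]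
    unfold ev
    cases x t j <;> cases x t (j + 1) <;>
      cases (decide (j ≤ P t ∧ E t ≠ some j)) <;>
      cases (decide (j + 1 ≤ P t ∧ E t ≠ some (j + 1))) <;> rfl

theorem Al_mono {j j' t : ℕ} (h : Al x P E j t) (h1 : j ≤ j') (h2 : j' ≤ P t) :
    Al x P E j' t :=
  ⟨h2, fun i hi hi' => h.2 i (by omega) hi'⟩

theorem Al_self {t : ℕ} : Al x P E (P t) t :=
  ⟨le_rfl, fun i hi hi' => by omega⟩

theorem Al_self' {j t : ℕ} (h : P t = j) : Al x P E j t := by
  subst h; exact Al_self

theorem Al_succ_iff {j t : ℕ} :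
    Al x P E j t ↔ (P t = j) ∨ (Al x P E (j + 1) t ∧ x t j = true ∧ E t ≠ some j) := by
  constructor
  · intro h
    by_cases hj : P t = j
    · left; exact hj
    · right
      have h1 : j < P t := by have := h.1; omega
      exact ⟨Al_mono h (by omega) h1, h.2 j le_rfl h1⟩
  · rintro (h | ⟨h1, h2, h3⟩)
    · exact Al_self' h
    · refine ⟨by have := h1.1; omega, ?_⟩
      intro i hi hi'
      by_cases hij : i = j
      · subst hij; exact ⟨h2, h3⟩
      · exact h1.2 i (by omega) hi'

theorem exc_alive (T : Timeline K x P E) {t e : ℕ} (ht : t < K) (h : E t = some e) :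
    Al x P E (e + 1) t := by
  refine ⟨T.exc_lt t ht e h, ?_⟩
  intro i hi hi'
  refine ⟨T.exc_one t ht e h i (by omega) hi', ?_⟩
  rw [h]
  intro h2
  injection h2 with h3
  omega

theorem exc_dead {t e : ℕ} (h0 : e < P t) (h : E t = some e) : ¬ Al x P E e t := by
  intro h2
  exact (h2.2 e le_rfl h0).2 h

/-- no insertion at level `j` -/
def NoIns (K : ℕ) (P : ℕ → ℕ) (j : ℕ) : Prop := ∀ t, t < K → P t ≠ j
/-- no exception at level `j` -/
def NoExc (K : ℕ) (E : ℕ → Option ℕ) (j : ℕ) : Prop := ∀ t, t < K → E t ≠ some j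

theorem rho_none (T : Timeline K x P E) {j : ℕ} (h1 : NoIns K P j) (h2 : NoExc K E j)
    (h3 : NoExc K E (j + 1)) {t : ℕ} (ht : t ≤ K) : x t j = x t (j + 1) := by
  have h := rho T j t ht
  rw [par_none t (fun s hs => ev_none (h1 s (by omega)) (h2 s (by omega)) (h3 s (by omega)))] at h
  revert h
  cases x t j <;> cases x t (j + 1) <;> simp

theorem chainA (T : Timeline K x P E) {j : ℕ} (h1 : NoIns K P j) (h2 : NoExc K E j)
    (h3 : NoExc K E (j + 1)) (h4 : ∀ t, t < K → P t = j + 1 → x t j = true) :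
    NoIns K P (j + 1) := by
  intro t ht hP
  have h5 := rho_none T h1 h2 h3 (t := t) (by omega)
  have h6 := T.top t ht
  rw [hP] at h6
  have h7 := h4 t ht hP
  rw [h6, h7] at h5
  exact absurd h5 (by simp)

/-- the clean level -/
structure Clean (K : ℕ) (x : ℕ → ℕ → Bool) (P : ℕ → ℕ) (E : ℕ → Option ℕ) (c : ℕ) : Prop where
  ins : NoIns K P c
  exc : NoExc K E c
  bit : x K c = false

theorem seg_exists (T : Timeline K x P E) {a q c : ℕ} (haq : a < q) (hqc : q < c)
    (ha : Clean K x P E a) (hc : Clean K x P E c) (hq : x K q = true) :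
    ∃ t, t < K ∧ ∃ j, a ≤ j ∧ j < c ∧ Al x P E (j + 1) t ∧ ¬ Al x P E j t := by
  by_contra hcon
  push Not at hcon
  -- no deaths
  have hexc : ∀ j, a ≤ j → j ≤ c → NoExc K E j := by
    intro j hj1 hj2 t ht hE
    by_cases hjc : j = c
    · subst hjc; exact hc.exc t ht hE
    · have h1 := hcon t ht j hj1 (by omega) (exc_alive T ht hE)
      exact exc_dead (T.exc_lt t ht j hE) hE h1
  have hall : ∀ j, a ≤ j → j ≤ q → NoIns K P j ∧ x K j = false := by
    intro j hj
    induction j, hj using Nat.le_induction with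
    | base => intro _; exact ⟨ha.ins, ha.bit⟩
    | succ j hj ih =>
      intro hjq
      have h1 := ih (by omega)
      have h2 := rho_none T h1.1 (hexc j hj (by omega)) (hexc (j + 1) (by omega) (by omega))
        (t := K) le_rfl
      refine ⟨?_, by rw [← h2]; exact h1.2⟩
      refine chainA T h1.1 (hexc j hj (by omega)) (hexc (j + 1) (by omega) (by omega)) ?_
      intro t ht hP
      have h3 := hcon t ht j hj (by omega) (Al_self' hP)
      exact (h3.2 j le_rfl (by omega)).1
  have := (hall q (by omega) le_rfl).2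
  rw [this] at hq
  exact absurd hq (by simp)

end

end Pool.Agent.H606PD
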